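import Mathlib

set_option autoImplicit false

open Set Filter Metric MeasureTheory

namespace Pool.Agent.TH279.MD

/-- The unicritical polynomial `z ^ d + c`. -/
def f (d : ℕ) (c : ℂ) : ℂ → ℂ := fun z => z ^ d + c

/-- The orbit of `v` under `f d c`. -/
def vv (d : ℕ) (c v : ℂ) (j : ℕ) : ℂ := (f d c)^[j] v

/-- `v_0, ..., v_L` are distinct and `v_L = ω v_k`, `ω ^ d = 1`; so `v` is strictly preperiodic, its
cycle is `v_{k+1}, ..., v_L`. -/
structure Orb (d L k : ℕ) (ω c v : ℂ) : Prop where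
  lt : k < L
  inj : ∀ i ≤ L, ∀ j ≤ L, vv d c v i = vv d c v j → i = j
  root : ω ^ d = 1
  opp : vv d c v L = ω * vv d c v k

/-- The `d`-th roots of unity. -/
noncomputable def RU (d : ℕ) : Finset ℂ := Polynomial.nthRootsFinset d (1 : ℂ)

/-- A `d`-th root. -/
noncomputable def rt (d : ℕ) (z : ℂ) : ℂ := z ^ (1 / (d : ℂ))

/-- The exponent of the weight, `2 - 2 / d`. -/
noncomputable def al (d : ℕ) : ℝ := 2 - 2 / (d : ℝ)

/-- The polynomial with simple zeros at the orbit. -/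
noncomputable def QQ (d L : ℕ) (c v z : ℂ) : ℂ := ∏ j ∈ Finset.range (L + 1), (z - vv d c v j)

/-- The cofactor. -/
noncomputable def EE (d L k : ℕ) (ω c v y : ℂ) : ℂ :=
  ∏ p ∈ (Finset.range L ×ˢ (RU d).erase 1).erase (k, ω), (y - p.2 * vv d c v p.1)

/-- The sum over the `d` preimages. -/
noncomputable def TR (d : ℕ) (c : ℂ) (φ : ℂ → ℝ) (z : ℂ) : ℝ := ∑ ζ ∈ RU d, φ (ζ * rt d (z - c))

/-- Continuous, nonnegative, and `|e| ^ a φ ∘ g` has the local sub-mean value property at `0` for all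
analytic germs `g`, `e`. -/
def WL (a : ℝ) (φ : ℂ → ℝ) : Prop :=
  Continuous φ ∧ (∀ z, 0 ≤ φ z) ∧ ∀ g e : ℂ → ℂ, AnalyticAt ℂ g 0 → AnalyticAt ℂ e 0 →
    ∀ᶠ r in nhdsWithin (0 : ℝ) (Ioi 0),
      ‖e 0‖ ^ a * φ (g 0) ≤ Real.circleAverage (fun ζ => ‖e ζ‖ ^ a * φ (g ζ)) 0 r

/-- Level sets. -/
def SL (d : ℕ) (c : ℂ) (r : ℝ) (n : ℕ) : Set ℂ := {z | ‖(f d c)^[n] z‖ ≤ r}

theorem mem_RU {d : ℕ} (hd : 2 ≤ d) {z : ℂ} : z ∈ RU d ↔ z ^ d = 1 :=
  Polynomial.mem_nthRootsFinset (by omega) 1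

theorem rt_pow {d : ℕ} (hd : 2 ≤ d) (z : ℂ) : rt d z ^ d = z := by
  have h := Complex.cpow_nat_inv_pow z (n := d) (by omega)
  unfold rt
  rw [one_div]
  exact h

theorem al_pos {d : ℕ} (hd : 2 ≤ d) : 0 < al d := by
  have h : (2 : ℝ) ≤ d := by exact_mod_cast hd
  have h2 : 2 / (d : ℝ) ≤ 1 := by rw [div_le_one (by linarith)]; exact h
  unfold al
  linarith

theorem al_lt {d : ℕ} (hd : 2 ≤ d) : al d < 2 := by
  have h : (2 : ℝ) ≤ d := by exact_mod_cast hd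
  have h2 : 0 < 2 / (d : ℝ) := by positivity
  unfold al
  linarith

theorem one_le_al {d : ℕ} (hd : 2 ≤ d) : 1 ≤ al d := by
  have h : (2 : ℝ) ≤ d := by exact_mod_cast hd
  have h2 : 2 / (d : ℝ) ≤ 1 := by rw [div_le_one (by linarith)]; exact h
  unfold al
  linarith

theorem pow_al {d : ℕ} (hd : 2 ≤ d) {x : ℝ} (hx : 0 ≤ x) : (x ^ d) ^ al d = x ^ (2 * (d - 1)) := by
  have h : (2 : ℝ) ≤ d := by exact_mod_cast hd
  rw [← Real.rpow_natCast x d, ← Real.rpow_mul hx]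
  have h2 : (d : ℝ) * al d = ((2 * (d - 1) : ℕ) : ℝ) := by
    unfold al
    rw [Nat.cast_mul, Nat.cast_sub (by omega)]
    push_cast
    field_simp
  rw [h2, Real.rpow_natCast]

theorem vv_succ (d : ℕ) (c v : ℂ) (j : ℕ) : vv d c v (j + 1) = vv d c v j ^ d + c := by
  unfold vv
  rw [Function.iterate_succ_apply']
  rfl

theorem vv_zero (d : ℕ) (c v : ℂ) : vv d c v 0 = v := rfl

theorem one_mem_RU {d : ℕ} (hd : 2 ≤ d) : (1 : ℂ) ∈ RU d := (mem_RU hd).mpr (one_pow d)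

theorem pow_sub_pow {d : ℕ} (hd : 2 ≤ d) (x y : ℂ) : x ^ d - y ^ d = ∏ ζ ∈ RU d, (x - ζ * y) := by
  have h := Complex.isPrimitiveRoot_exp d (by omega)
  exact h.pow_sub_pow_eq_prod_sub_mul x y (by omega)

theorem Orb.ne_one {d L k : ℕ} {ω c v : ℂ} (h : Orb d L k ω c v) : ω ≠ 1 := by
  intro h1
  have h2 := h.opp
  rw [h1, one_mul] at h2
  have := h.inj L le_rfl k h.lt.le h2
  have := h.lt
  omega

/-- The key identity. -/
theorem QQ_f {d L k : ℕ} (hd : 2 ≤ d) {ω c v : ℂ} (h : Orb d L k ω c v) (y : ℂ) :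
    QQ d L c v (f d c y) = (f d c y - v) * QQ d L c v y * EE d L k ω c v y := by
  classical
  have hmem : (k, ω) ∈ Finset.range L ×ˢ (RU d).erase 1 := by
    rw [Finset.mem_product, Finset.mem_range, Finset.mem_erase, mem_RU hd]
    exact ⟨h.lt, h.ne_one, h.root⟩
  have h2 : ∏ j ∈ Finset.range L, (y ^ d - vv d c v j ^ d) =
      (∏ j ∈ Finset.range L, (y - vv d c v j)) *
        ∏ p ∈ Finset.range L ×ˢ (RU d).erase 1, (y - p.2 * vv d c v p.1) := by
    rw [Finset.prod_product, ← Finset.prod_mul_distrib]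
    apply Finset.prod_congr rfl
    intro j _
    rw [pow_sub_pow hd, ← Finset.mul_prod_erase _ _ (one_mem_RU hd), one_mul]
  unfold QQ EE
  rw [Finset.prod_range_succ' (fun j => f d c y - vv d c v j), vv_zero]
  have h1 : ∀ j ∈ Finset.range L, f d c y - vv d c v (j + 1) = y ^ d - vv d c v j ^ d := by
    intro j _
    rw [vv_succ]
    unfold f
    ring
  rw [Finset.prod_congr rfl h1, h2, Finset.prod_range_succ,
    ← Finset.mul_prod_erase (Finset.range L ×ˢ (RU d).erase 1)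
      (fun p : ℕ × ℂ => y - p.2 * vv d c v p.1) hmem, h.opp]
  ring

end Pool.Agent.TH279.MD
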