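import Mathlib
import Pool.Agent.TH279.MD.Defs
import Pool.Agent.TH429.J2482
import Pool.Agent.TH913.J2483
import Pool.Agent.TH180.J2484
import Pool.Agent.TH312.J2485
import Pool.Agent.TH511.J2486
import Pool.Agent.TH913.J2487
import Pool.Agent.TH511.J2488
import Pool.Agent.TH574.J2490

set_option autoImplicit false
open Set Filter Metric MeasureTheory
namespace Pool.Agent.TH279.MD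

theorem WL_one {a : ℝ} (ha : 0 < a) : WL a (fun _ => 1) := Pool.Agent.TH429.J2482.WL_one ha

theorem WL_mul {a : ℝ} (ha : 0 < a) {φ : ℂ → ℝ} (h : WL a φ) {E : ℂ → ℂ} (hE : Differentiable ℂ E) :
    WL a (fun z => ‖E z‖ ^ a * φ z) := Pool.Agent.TH429.J2482.WL_mul ha h hE

theorem continuous_TR {d : ℕ} (hd : 2 ≤ d) {φ : ℂ → ℝ} (h : Continuous φ) (c : ℂ) :
    Continuous (TR d c φ) := Pool.Agent.TH429.J2482.continuous_TR hd h c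

theorem WL_TR {d : ℕ} (hd : 2 ≤ d) {a : ℝ} (ha : 0 < a) {φ : ℂ → ℝ} (h : WL a φ) (c : ℂ) :
    WL a (TR d c φ) := Pool.Agent.TH429.J2482.WL_TR hd ha h c

theorem WL_mean {a : ℝ} (ha : 0 < a) {φ : ℂ → ℝ} (h : WL a φ) {ρ : ℝ} (hρ : 1 ≤ ρ) {z : ℂ}
    (hz : ‖z‖ ≤ ρ) :
    ENNReal.ofReal (φ z) ≤
      ∫⁻ w in {w : ℂ | ρ + 2 ≤ ‖w‖ ∧ ‖w‖ ≤ 3 * ρ + 3}, ENNReal.ofReal (φ w) :=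
  Pool.Agent.TH913.J2483.WL_mean ha h hρ hz

theorem measurable_rt (d : ℕ) : Measurable (rt d) := Pool.Agent.TH180.J2484.measurable_rt d

theorem dual {d : ℕ} (hd : 2 ≤ d) (c : ℂ) {S : Set ℂ} (hS : MeasurableSet S) {ψ : ℂ → ENNReal}
    (hψ : Measurable ψ) :
    ∫⁻ y in (f d c) ⁻¹' S, ψ y =
      ∫⁻ w in S, (∑ ζ ∈ RU d, ψ (ζ * rt d (w - c))) *
        ENNReal.ofReal (1 / ((d : ℝ) ^ 2 * ‖w - c‖ ^ al d)) :=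
  Pool.Agent.TH180.J2484.dual hd c hS hψ

theorem dualQ {d L k : ℕ} (hd : 2 ≤ d) {ω c v : ℂ} (h : Orb d L k ω c v) {S : Set ℂ}
    (hS : MeasurableSet S) {φ : ℂ → ℝ} (hφ : Measurable φ) (h0 : ∀ z, 0 ≤ φ z) :
    ∫⁻ y in (f d c) ⁻¹' S, ENNReal.ofReal (φ y / ‖QQ d L c v y‖ ^ al d) =
      ∫⁻ w in S, ENNReal.ofReal
        (TR d c (fun y => (‖f d c y - v‖ * ‖EE d L k ω c v y‖) ^ al d /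
          ((d : ℝ) ^ 2 * ‖y‖ ^ (2 * (d - 1))) * φ y) w / ‖QQ d L c v w‖ ^ al d) :=
  Pool.Agent.TH180.J2484.dualQ hd h hS hφ h0

theorem orb_of_preper {d : ℕ} (hd : 2 ≤ d) {c₀ : ℂ}
    (hpp : ∃ m n : ℕ, 1 ≤ n ∧ (f d c₀)^[m + n] 0 = (f d c₀)^[m] 0)
    (hnp : ∀ p : ℕ, 1 ≤ p → (f d c₀)^[p] 0 ≠ 0) : ∃ (L k : ℕ) (ω : ℂ), Orb d L k ω c₀ c₀ :=
  Pool.Agent.TH312.J2485.orb_of_preper hd hpp hnp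

theorem vv_ne_zero {d L k : ℕ} (hd : 2 ≤ d) {ω c₀ : ℂ} (h : Orb d L k ω c₀ c₀) (j : ℕ) :
    vv d c₀ c₀ j ≠ 0 := Pool.Agent.TH312.J2485.vv_ne_zero hd h j

theorem cont {d L k : ℕ} (hd : 2 ≤ d) {ω c₀ : ℂ} (h : Orb d L k ω c₀ c₀)
    (hmu : 1 < ‖∏ j ∈ Finset.Icc (k + 1) L, ((d : ℂ) * vv d c₀ c₀ j ^ (d - 1))‖) :
    ∃ (ρ C : ℝ) (v : ℂ → ℂ), 0 < ρ ∧ 0 < C ∧ DifferentiableOn ℂ v (ball c₀ ρ) ∧ v c₀ = c₀ ∧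
      ∀ c ∈ ball c₀ ρ, ‖v c - c₀‖ ≤ C * ‖c - c₀‖ ∧ Orb d L k ω c (v c) :=
  Pool.Agent.TH312.J2485.cont hd h hmu

theorem expand {d L k : ℕ} (hd : 2 ≤ d) {ω c₀ : ℂ} (h : Orb d L k ω c₀ c₀)
    (hmu : 1 < ‖∏ j ∈ Finset.Icc (k + 1) L, ((d : ℂ) * vv d c₀ c₀ j ^ (d - 1))‖) :
    ∃ ρ κ s₀ C : ℝ, 0 < ρ ∧ 0 < κ ∧ 0 < s₀ ∧ 0 < C ∧ ∀ c v : ℂ, ‖c - c₀‖ ≤ ρ → ‖v - c₀‖ ≤ ρ →
      Orb d L k ω c v → ∀ s : ℝ, 0 < s → s ≤ s₀ → ∃ n : ℕ, (n : ℝ) ≤ C * (1 + |Real.log s|) ∧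
        InjOn ((f d c)^[n]) (ball v s) ∧ ∀ z ∈ ball v s, κ / s ≤ ‖deriv ((f d c)^[n]) z‖ :=
  Pool.Agent.TH511.J2486.expand hd h hmu

theorem near_crit (a C₂ s₀ : ℝ) (ha : 0 < a) (ha2 : a < 2) (hC₂ : 0 ≤ C₂) (hs₀ : 0 < s₀) :
    ∃ C : ℝ, 0 < C ∧
    ∀ (c v : ℂ) (η V δ : ℝ) (S : Set ℂ), MeasurableSet S → 0 < η → ‖c - v‖ ≤ η → 0 ≤ V → 0 < δ →
      η ≤ s₀ / 8 → δ ≤ s₀ / 8 →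
      (∀ s : ℝ, η ≤ s → s ≤ s₀ → volume (S ∩ ball v s) ≤ ENNReal.ofReal (C₂ * s ^ 2 * V)) →
      ∫⁻ w in S ∩ ball c δ, ENNReal.ofReal (1 / ‖w - c‖ ^ a) ≤
        ENNReal.ofReal (C * (δ ^ (2 - a) * V + (η ^ 2 * V) ^ (1 - a / 2))) :=
  Pool.Agent.TH913.J2487.near_crit a C₂ s₀ ha ha2 hC₂ hs₀

theorem area_rpow (a : ℝ) (ha : 0 < a) (ha2 : a < 2) : ∃ C : ℝ, 0 < C ∧
    ∀ (x : ℂ) (S : Set ℂ) (V : ℝ), MeasurableSet S → 0 ≤ V → volume S ≤ ENNReal.ofReal V →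
      ∫⁻ w in S, ENNReal.ofReal (1 / ‖w - x‖ ^ a) ≤ ENNReal.ofReal (C * V ^ (1 - a / 2)) :=
  Pool.Agent.TH913.J2487.area_rpow a ha ha2

theorem perturb {d L k : ℕ} (hd : 2 ≤ d) {ω c₀ : ℂ} {h₀ : ℂ → ℝ} (hcont : Continuous h₀)
    (h1 : ∀ z, 1 ≤ h₀ z) {r : ℝ} (hr : 0 < r)
    (hsup : ∀ z : ℂ, ‖z‖ ≤ r + 1 →
      TR d c₀ (fun y => ‖EE d L k ω c₀ c₀ y‖ ^ al d / (d : ℝ) ^ 2 * h₀ y) z ≤ h₀ z - 1 / 2) :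
    ∃ θ : ℝ, 0 < θ ∧ θ < 1 ∧ ∀ δ : ℝ, 0 < δ → ∃ ρ : ℝ, 0 < ρ ∧ ∀ c v : ℂ, ‖c - c₀‖ ≤ ρ →
      ‖v - c₀‖ ≤ ρ → ∀ w : ℂ, ‖w‖ ≤ r → δ ^ d ≤ ‖w - c‖ →
        TR d c (fun y => (‖f d c y - v‖ * ‖EE d L k ω c v y‖) ^ al d /
          ((d : ℝ) ^ 2 * ‖y‖ ^ (2 * (d - 1))) * h₀ y) w ≤ θ * h₀ w :=
  Pool.Agent.TH511.J2488.perturb hd hcont h1 hr hsup

theorem nonzero_order {d L k : ℕ} (hd : 2 ≤ d) {ω c₀ : ℂ} {ρ : ℝ} (hρ : 0 < ρ) {v : ℂ → ℂ}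
    (hv : DifferentiableOn ℂ v (ball c₀ ρ)) (hv0 : v c₀ = c₀)
    (horb : ∀ c ∈ ball c₀ ρ, Orb d L k ω c (v c)) :
    ∃ (m : ℕ) (κ ε : ℝ), 0 < κ ∧ 0 < ε ∧ ε ≤ ρ ∧ ∀ c : ℂ, c ≠ c₀ → ‖c - c₀‖ < ε →
      κ * ‖c - c₀‖ ^ m ≤ ‖c - v c‖ ∧ ‖c - v c‖ ≤ 2 * (‖c - c₀‖ * ‖1 - deriv v c‖) :=
  Pool.Agent.TH574.J2490.nonzero_order hd hρ hv hv0 horb

end Pool.Agent.TH279.MD
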