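import Mathlib
import Pool.Agent.TH279.MD.Base

set_option autoImplicit false

open Set Filter Metric MeasureTheory

namespace Pool.Agent.TH279.MD

theorem continuous_f (d : ℕ) (c : ℂ) : Continuous (f d c) := by unfold f; fun_prop

theorem differentiable_f (d : ℕ) (c : ℂ) : Differentiable ℂ (f d c) := by unfold f; fun_prop

theorem continuous_fn (d : ℕ) (c : ℂ) (n : ℕ) : Continuous ((f d c)^[n]) :=
  (continuous_f d c).iterate n

theorem differentiable_fn (d : ℕ) (c : ℂ) (n : ℕ) : Differentiable ℂ ((f d c)^[n]) :=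
  (differentiable_f d c).iterate n

theorem continuous_QQ (d L : ℕ) (c v : ℂ) : Continuous (QQ d L c v) := by unfold QQ; fun_prop

theorem differentiable_QQ (d L : ℕ) (c v : ℂ) : Differentiable ℂ (QQ d L c v) := by
  unfold QQ
  fun_prop

theorem differentiable_EE (d L k : ℕ) (ω c v : ℂ) : Differentiable ℂ (EE d L k ω c v) := by
  unfold EE
  fun_prop

theorem continuous_EE (d L k : ℕ) (ω c v : ℂ) : Continuous (EE d L k ω c v) :=
  (differentiable_EE d L k ω c v).continuous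

/-- The base transfer operator. -/
noncomputable def LOP (d L k : ℕ) (ω c₀ : ℂ) (φ : ℂ → ℝ) : ℂ → ℝ :=
  TR d c₀ (fun y => ‖EE d L k ω c₀ c₀ y‖ ^ al d / (d : ℝ) ^ 2 * φ y)

/-- The iterates of the transfer operator on `1`. -/
noncomputable def uu (d L k : ℕ) (ω c₀ : ℂ) (n : ℕ) : ℂ → ℝ := (LOP d L k ω c₀)^[n] (fun _ => 1)

theorem WL_const_mul {a : ℝ} {φ : ℂ → ℝ} (h : WL a φ) {t : ℝ} (ht : 0 ≤ t) :
    WL a (fun z => t * φ z) := by
  refine ⟨h.1.const_mul t, fun z => mul_nonneg ht (h.2.1 z), ?_⟩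
  intro g e hg he
  filter_upwards [h.2.2 g e hg he] with r hr
  have h1 : (fun ζ => ‖e ζ‖ ^ a * (t * φ (g ζ))) = t • fun ζ => ‖e ζ‖ ^ a * φ (g ζ) := by
    funext ζ
    simp only [Pi.smul_apply, smul_eq_mul]
    ring
  rw [h1, Real.circleAverage_smul, smul_eq_mul]
  calc ‖e 0‖ ^ a * (t * φ (g 0)) = t * (‖e 0‖ ^ a * φ (g 0)) := by ring
    _ ≤ _ := mul_le_mul_of_nonneg_left hr ht

theorem WL_LOP {d L k : ℕ} (hd : 2 ≤ d) {ω c₀ : ℂ} {φ : ℂ → ℝ} (h : WL (al d) φ) :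
    WL (al d) (LOP d L k ω c₀ φ) := by
  unfold LOP
  apply WL_TR hd (al_pos hd)
  have h1 := WL_const_mul (WL_mul (al_pos hd) (E := fun y => EE d L k ω c₀ c₀ y) h
    (differentiable_EE d L k ω c₀ c₀)) (t := 1 / (d : ℝ) ^ 2) (by positivity)
  refine Eq.mp ?_ h1
  congr 1
  funext y
  ring

theorem uu_succ (d L k : ℕ) (ω c₀ : ℂ) (n : ℕ) :
    uu d L k ω c₀ (n + 1) = LOP d L k ω c₀ (uu d L k ω c₀ n) := by
  unfold uu
  rw [Function.iterate_succ_apply']

theorem WL_uu {d : ℕ} (hd : 2 ≤ d) (L k : ℕ) (ω c₀ : ℂ) (n : ℕ) : WL (al d) (uu d L k ω c₀ n) := by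
  induction n with
  | zero => exact WL_one (al_pos hd)
  | succ n ih => rw [uu_succ]; exact WL_LOP hd ih

theorem uu_cont {d : ℕ} (hd : 2 ≤ d) (L k : ℕ) (ω c₀ : ℂ) (n : ℕ) : Continuous (uu d L k ω c₀ n) :=
  (WL_uu hd L k ω c₀ n).1

theorem uu_nonneg {d : ℕ} (hd : 2 ≤ d) (L k : ℕ) (ω c₀ : ℂ) (n : ℕ) (z : ℂ) :
    0 ≤ uu d L k ω c₀ n z := (WL_uu hd L k ω c₀ n).2.1 z

theorem rt_zero_iff {d : ℕ} (hd : 2 ≤ d) (z : ℂ) : rt d z = 0 ↔ z = 0 := by
  constructor
  · intro h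
    have := rt_pow hd z
    rw [h, zero_pow (by omega)] at this
    exact this.symm
  · rintro rfl
    have := rt_pow hd 0
    exact pow_eq_zero_iff (by omega) |>.mp this

theorem RU_ne_zero {d : ℕ} (hd : 2 ≤ d) {ζ : ℂ} (hζ : ζ ∈ RU d) : ζ ≠ 0 := by
  rintro rfl
  have := (mem_RU hd).mp hζ
  rw [zero_pow (by omega)] at this
  exact zero_ne_one this

theorem RU_norm {d : ℕ} (hd : 2 ≤ d) {ζ : ℂ} (hζ : ζ ∈ RU d) : ‖ζ‖ = 1 := by
  have h1 := congrArg norm ((mem_RU hd).mp hζ)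
  rw [norm_pow, norm_one] at h1
  exact (pow_eq_one_iff_of_nonneg (norm_nonneg ζ) (by omega)).mp h1

theorem f_rt {d : ℕ} (hd : 2 ≤ d) (c z : ℂ) {ζ : ℂ} (hζ : ζ ∈ RU d) :
    f d c (ζ * rt d (z - c)) = z := by
  unfold f
  rw [mul_pow, rt_pow hd, (mem_RU hd).mp hζ]
  ring

/-- one step of the duality at the base parameter -/
theorem dual_LOP {d L k : ℕ} (hd : 2 ≤ d) {ω c₀ : ℂ} (h : Orb d L k ω c₀ c₀) {S : Set ℂ}
    (hS : MeasurableSet S) {φ : ℂ → ℝ} (hφ : Measurable φ) (h0 : ∀ z, 0 ≤ φ z) :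
    ∫⁻ y in (f d c₀) ⁻¹' S, ENNReal.ofReal (φ y / ‖QQ d L c₀ c₀ y‖ ^ al d) =
      ∫⁻ w in S, ENNReal.ofReal (LOP d L k ω c₀ φ w / ‖QQ d L c₀ c₀ w‖ ^ al d) := by
  rw [dualQ hd h hS hφ h0]
  apply lintegral_congr_ae
  apply ae_restrict_of_ae
  have h1 : ∀ᵐ w : ℂ, w ≠ c₀ := by
    rw [ae_iff]
    simp
  filter_upwards [h1] with w hw
  have h2 : rt d (w - c₀) ≠ 0 := by
    rw [Ne, rt_zero_iff hd, sub_eq_zero]
    exact hw
  have key : ∀ y : ℂ, y ≠ 0 → (‖f d c₀ y - c₀‖ * ‖EE d L k ω c₀ c₀ y‖) ^ al d /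
      ((d : ℝ) ^ 2 * ‖y‖ ^ (2 * (d - 1))) = ‖EE d L k ω c₀ c₀ y‖ ^ al d / (d : ℝ) ^ 2 := by
    intro y hy
    have hy' : ‖y‖ ≠ 0 := norm_ne_zero_iff.mpr hy
    have h3 : ‖f d c₀ y - c₀‖ = ‖y‖ ^ d := by
      unfold f
      rw [add_sub_cancel_right, norm_pow]
    rw [h3, Real.mul_rpow (by positivity) (norm_nonneg _), pow_al hd (norm_nonneg _)]
    have h4 : ‖y‖ ^ (2 * (d - 1)) ≠ 0 := pow_ne_zero _ hy'
    have h5 : (d : ℝ) ≠ 0 := by
      have : 0 < d := by omega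
      positivity
    field_simp
  unfold LOP TR
  beta_reduce
  congr 2
  apply Finset.sum_congr rfl
  intro ζ hζ
  rw [key _ (mul_ne_zero (RU_ne_zero hd hζ) h2)]

theorem dual_uu {d L k : ℕ} (hd : 2 ≤ d) {ω c₀ : ℂ} (h : Orb d L k ω c₀ c₀) (n : ℕ) {S : Set ℂ}
    (hS : MeasurableSet S) :
    ∫⁻ y in ((f d c₀)^[n]) ⁻¹' S, ENNReal.ofReal (1 / ‖QQ d L c₀ c₀ y‖ ^ al d) =
      ∫⁻ w in S, ENNReal.ofReal (uu d L k ω c₀ n w / ‖QQ d L c₀ c₀ w‖ ^ al d) := by
  induction n generalizing S with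
  | zero => rfl
  | succ n ih =>
    have h1 : (f d c₀)^[n + 1] ⁻¹' S = ((f d c₀)^[n]) ⁻¹' ((f d c₀) ⁻¹' S) := by
      rw [Function.iterate_succ', preimage_comp]
    rw [h1, ih ((continuous_f d c₀).measurable hS),
      dual_LOP hd h hS (uu_cont hd L k ω c₀ n).measurable (uu_nonneg hd L k ω c₀ n), uu_succ]

/-- the norm of a product of differences is controlled by the distance to the nearest node -/
theorem inv_QQ_le {d L : ℕ} {c v : ℂ} {t a : ℝ} (ht : 0 < t) (ha : 0 ≤ a)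
    (hsep : ∀ i ≤ L, ∀ j ≤ L, i ≠ j → 2 * t ≤ ‖vv d c v i - vv d c v j‖) (z : ℂ) :
    1 / ‖QQ d L c v z‖ ^ a ≤
      ∑ j ∈ Finset.range (L + 1), (1 / t ^ L) ^ a * (1 / ‖z - vv d c v j‖ ^ a) := by
  -- the nearest node
  obtain ⟨j, hj, hmin⟩ := Finset.exists_min_image (Finset.range (L + 1)) (fun j => ‖z - vv d c v j‖)
    ⟨0, by simp⟩
  have hfar : ∀ i ∈ (Finset.range (L + 1)).erase j, t ≤ ‖z - vv d c v i‖ := by
    intro i hi
    rw [Finset.mem_erase] at hi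
    have h1 := hsep i (by have := Finset.mem_range.mp hi.2; omega) j
      (by have := Finset.mem_range.mp hj; omega) hi.1
    have h2 := hmin i hi.2
    have h3 : ‖vv d c v i - vv d c v j‖ ≤ ‖z - vv d c v j‖ + ‖z - vv d c v i‖ := by
      rw [show vv d c v i - vv d c v j = (z - vv d c v j) - (z - vv d c v i) by ring]
      exact norm_sub_le _ _
    linarith
  have h4 : t ^ L * ‖z - vv d c v j‖ ≤ ‖QQ d L c v z‖ := by
    unfold QQ
    rw [norm_prod, ← Finset.mul_prod_erase _ _ hj, mul_comm]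
    apply mul_le_mul_of_nonneg_left _ (norm_nonneg _)
    have h5 : ((Finset.range (L + 1)).erase j).card = L := by
      rw [Finset.card_erase_of_mem hj, Finset.card_range]
      omega
    calc t ^ L = ∏ _i ∈ (Finset.range (L + 1)).erase j, t := by rw [Finset.prod_const, h5]
      _ ≤ _ := Finset.prod_le_prod (fun _ _ => ht.le) hfar
  refine le_trans ?_ (Finset.single_le_sum (f := fun j => (1 / t ^ L) ^ a *
    (1 / ‖z - vv d c v j‖ ^ a)) (fun i _ => by positivity) hj)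
  by_cases h0 : ‖z - vv d c v j‖ = 0
  · have : ‖QQ d L c v z‖ = 0 := by
      rw [norm_eq_zero]
      unfold QQ
      exact Finset.prod_eq_zero hj (norm_eq_zero.mp h0)
    rw [this, h0]
    rcases eq_or_lt_of_le ha with h | h
    · rw [← h]; simp
    · rw [Real.zero_rpow h.ne']; simp
  · have h6 : 0 < ‖z - vv d c v j‖ := lt_of_le_of_ne (norm_nonneg _) (Ne.symm h0)
    have h7 : (t ^ L * ‖z - vv d c v j‖) ^ a ≤ ‖QQ d L c v z‖ ^ a :=
      Real.rpow_le_rpow (by positivity) h4 ha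
    have h8 : 0 < (t ^ L * ‖z - vv d c v j‖) ^ a := by positivity
    calc 1 / ‖QQ d L c v z‖ ^ a ≤ 1 / (t ^ L * ‖z - vv d c v j‖) ^ a :=
          one_div_le_one_div_of_le h8 h7
      _ = _ := by
        rw [Real.mul_rpow (by positivity) h6.le, Real.div_rpow (by positivity) (by positivity),
          Real.one_rpow]
        field_simp

/-- Uniform bound of the total mass. -/
theorem mass_bound {a : ℝ} (ha : 0 < a) (ha2 : a < 2) : ∃ C : ℝ, 0 < C ∧
    ∀ {d L : ℕ} {c v : ℂ} {t r : ℝ}, 0 < t → 0 < r →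
    (∀ i ≤ L, ∀ j ≤ L, i ≠ j → 2 * t ≤ ‖vv d c v i - vv d c v j‖) →
    ∫⁻ z in closedBall 0 r, ENNReal.ofReal (1 / ‖QQ d L c v z‖ ^ a) ≤
      ENNReal.ofReal ((L + 1) * ((1 / t ^ L) ^ a * (C * (4 * r ^ 2) ^ (1 - a / 2)))) := by
  obtain ⟨C, hC, H⟩ := area_rpow a ha ha2
  refine ⟨C, hC, ?_⟩
  intro d L c v t r ht hr hsep
  have hvol : volume (closedBall (0 : ℂ) r) ≤ ENNReal.ofReal (4 * r ^ 2) := by
    rw [Complex.volume_closedBall]
    have h4 : (NNReal.pi : ENNReal) = ENNReal.ofReal Real.pi := by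
      rw [ENNReal.ofReal, Real.toNNReal_of_nonneg Real.pi_pos.le]
      rfl
    rw [← ENNReal.ofReal_pow hr.le, h4, ← ENNReal.ofReal_mul (by positivity)]
    apply ENNReal.ofReal_le_ofReal
    nlinarith [Real.pi_le_four, sq_nonneg r]
  calc ∫⁻ z in closedBall 0 r, ENNReal.ofReal (1 / ‖QQ d L c v z‖ ^ a)
      ≤ ∫⁻ z in closedBall 0 r, ∑ j ∈ Finset.range (L + 1),
          ENNReal.ofReal ((1 / t ^ L) ^ a) * ENNReal.ofReal (1 / ‖z - vv d c v j‖ ^ a) := by
        apply lintegral_mono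
        intro z
        refine (ENNReal.ofReal_le_ofReal (inv_QQ_le ht ha.le hsep z)).trans ?_
        rw [ENNReal.ofReal_sum_of_nonneg (fun i _ => by positivity)]
        apply le_of_eq
        apply Finset.sum_congr rfl
        intro j _
        rw [ENNReal.ofReal_mul (by positivity)]
    _ = ∑ j ∈ Finset.range (L + 1), ENNReal.ofReal ((1 / t ^ L) ^ a) *
          ∫⁻ z in closedBall 0 r, ENNReal.ofReal (1 / ‖z - vv d c v j‖ ^ a) := by
        rw [lintegral_finsetSum']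
        · apply Finset.sum_congr rfl
          intro j _
          rw [lintegral_const_mul' _ _ ENNReal.ofReal_ne_top]
        · intro j _
          apply AEMeasurable.const_mul
          apply Measurable.aemeasurable
          apply ENNReal.measurable_ofReal.comp
          exact measurable_const.div ((continuous_id.sub continuous_const).norm.measurable.pow_const a)
    _ ≤ ∑ j ∈ Finset.range (L + 1), ENNReal.ofReal ((1 / t ^ L) ^ a) *
          ENNReal.ofReal (C * (4 * r ^ 2) ^ (1 - a / 2)) := by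
        apply Finset.sum_le_sum
        intro j hj
        gcongr
        exact H _ _ _ measurableSet_closedBall (by positivity) hvol
    _ = _ := by
        rw [Finset.sum_const, Finset.card_range, nsmul_eq_mul, ← ENNReal.ofReal_mul (by positivity),
          ← ENNReal.ofReal_natCast, ← ENNReal.ofReal_mul (by positivity)]
        push_cast
        rfl

end Pool.Agent.TH279.MD
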