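import Mathlib
import Pool.Agent.TH279.MD.Decay

set_option autoImplicit false

open Set Filter Metric MeasureTheory

namespace Pool.Agent.TH279.MD

/-- the annulus -/
def WW (ρ : ℝ) : Set ℂ := {w : ℂ | ρ + 2 ≤ ‖w‖ ∧ ‖w‖ ≤ 3 * ρ + 3}

theorem sq_le_f {d : ℕ} (hd : 2 ≤ d) {c z : ℂ} (hz : 1 ≤ ‖z‖) : ‖z‖ ^ 2 ≤ ‖f d c z‖ + ‖c‖ := by
  calc ‖z‖ ^ 2 ≤ ‖z‖ ^ d := pow_le_pow_right₀ hz hd
    _ = ‖f d c z - c‖ := by rw [← norm_pow]; congr 1; unfold f; ring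
    _ ≤ _ := norm_sub_le _ _

theorem esc_step {d : ℕ} (hd : 2 ≤ d) {c : ℂ} {ρ : ℝ} (hρ : ‖c‖ + 1 ≤ ρ) {z : ℂ}
    (hz : ρ + 2 ≤ ‖z‖) : 3 * ρ + 3 < ‖f d c z‖ := by
  have hc := norm_nonneg c
  have h1 := sq_le_f hd (c := c) (z := z) (by linarith)
  nlinarith

theorem esc_iter {d : ℕ} (hd : 2 ≤ d) {c : ℂ} {ρ : ℝ} (hρ : ‖c‖ + 1 ≤ ρ) {z : ℂ}
    (hz : ρ + 2 ≤ ‖z‖) (n : ℕ) : 3 * ρ + 3 < ‖(f d c)^[n + 1] z‖ := by
  have hc := norm_nonneg c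
  induction n with
  | zero => exact esc_step hd hρ hz
  | succ n ih =>
    rw [Function.iterate_succ_apply']
    exact esc_step hd hρ (by linarith)

theorem measurableSet_WW (ρ : ℝ) : MeasurableSet (WW ρ) :=
  (measurableSet_le measurable_const continuous_norm.measurable).inter
    (measurableSet_le continuous_norm.measurable measurable_const)

theorem pre_disj {d : ℕ} (hd : 2 ≤ d) {c : ℂ} {ρ : ℝ} (hρ : ‖c‖ + 1 ≤ ρ) :
    Pairwise (Function.onFun Disjoint fun n : ℕ => ((f d c)^[n]) ⁻¹' WW ρ) := by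
  have key : ∀ m n : ℕ, m < n → Disjoint (((f d c)^[m]) ⁻¹' WW ρ) (((f d c)^[n]) ⁻¹' WW ρ) := by
    intro m n hmn
    rw [Set.disjoint_left]
    intro z hz hz'
    obtain ⟨j, rfl⟩ : ∃ j, n = (j + 1) + m := ⟨n - m - 1, by omega⟩
    have h1 : ρ + 2 ≤ ‖(f d c)^[m] z‖ := hz.1
    have h2 : ‖(f d c)^[(j + 1) + m] z‖ ≤ 3 * ρ + 3 := hz'.2
    rw [Function.iterate_add_apply] at h2
    have := esc_iter hd hρ h1 j
    linarith
  intro m n hmn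
  rcases lt_or_gt_of_ne hmn with h | h
  · exact key m n h
  · exact (key n m h).symm

theorem pre_sub {d : ℕ} (hd : 2 ≤ d) {c : ℂ} {ρ : ℝ} (hρ : ‖c‖ + 1 ≤ ρ) (n : ℕ) :
    ((f d c)^[n]) ⁻¹' WW ρ ⊆ closedBall 0 (3 * ρ + 3) := by
  have hc := norm_nonneg c
  intro z hz
  rw [mem_closedBall_zero_iff]
  by_contra hcon
  rw [not_le] at hcon
  cases n with
  | zero => exact absurd hz.2 (not_le.mpr hcon)
  | succ n =>
    have := esc_iter hd hρ (z := z) (by linarith) n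
    exact absurd hz.2 (not_le.mpr this)

/-- separation constant -/
theorem exists_sep {d L k : ℕ} {ω c v : ℂ} (h : Orb d L k ω c v) :
    ∃ t : ℝ, 0 < t ∧ ∀ i ≤ L, ∀ j ≤ L, i ≠ j → 2 * t ≤ ‖vv d c v i - vv d c v j‖ := by
  classical
  set s := ((Finset.range (L + 1)) ×ˢ (Finset.range (L + 1))).filter (fun p => p.1 ≠ p.2) with hs
  have hne : s.Nonempty := ⟨(0, 1), by
    have := h.lt
    simp only [hs, Finset.mem_filter, Finset.mem_product, Finset.mem_range]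
    omega⟩
  obtain ⟨p, hp, hmin⟩ := Finset.exists_min_image s (fun p => ‖vv d c v p.1 - vv d c v p.2‖) hne
  refine ⟨‖vv d c v p.1 - vv d c v p.2‖ / 2, ?_, ?_⟩
  · simp only [hs, Finset.mem_filter, Finset.mem_product, Finset.mem_range] at hp
    have h1 : vv d c v p.1 ≠ vv d c v p.2 := fun h2 =>
      hp.2 (h.inj p.1 (by omega) p.2 (by omega) h2)
    have := norm_pos_iff.mpr (sub_ne_zero.mpr h1)
    positivity
  · intro i hi j hj hij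
    have := hmin (i, j) (by
      simp only [hs, Finset.mem_filter, Finset.mem_product, Finset.mem_range]
      exact ⟨⟨by omega, by omega⟩, hij⟩)
    simpa [mul_div_cancel₀] using this

theorem exists_bd (d L : ℕ) (c v : ℂ) : ∃ M : ℝ, 0 < M ∧ ∀ i ≤ L, ‖vv d c v i‖ ≤ M := by
  refine ⟨1 + ∑ i ∈ Finset.range (L + 1), ‖vv d c v i‖, by positivity, ?_⟩
  intro i hi
  have := Finset.single_le_sum (f := fun i => ‖vv d c v i‖) (s := Finset.range (L + 1))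
    (fun i _ => norm_nonneg _) (Finset.mem_range.mpr (by omega : i < L + 1))
  linarith

theorem tendsto_W {d L k : ℕ} (hd : 2 ≤ d) {ω c₀ : ℂ} (h : Orb d L k ω c₀ c₀) {ρ : ℝ}
    (hρ : ‖c₀‖ + 1 ≤ ρ) :
    Tendsto (fun n => ∫⁻ w in WW ρ,
      ENNReal.ofReal (uu d L k ω c₀ n w / ‖QQ d L c₀ c₀ w‖ ^ al d)) atTop (nhds 0) := by
  have hc := norm_nonneg c₀
  obtain ⟨t, ht, hsep⟩ := exists_sep h
  obtain ⟨C, hC, hmass⟩ := mass_bound (al_pos hd) (al_lt hd)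
  apply ENNReal.tendsto_atTop_zero_of_tsum_ne_top
  have h1 : ∑' n, ∫⁻ w in WW ρ, ENNReal.ofReal (uu d L k ω c₀ n w / ‖QQ d L c₀ c₀ w‖ ^ al d) =
      ∫⁻ y in ⋃ n : ℕ, ((f d c₀)^[n]) ⁻¹' WW ρ,
        ENNReal.ofReal (1 / ‖QQ d L c₀ c₀ y‖ ^ al d) := by
    rw [lintegral_iUnion (fun n => (continuous_fn d c₀ n).measurable (measurableSet_WW ρ))
      (pre_disj hd hρ)]
    exact tsum_congr fun n => (dual_uu hd h n (measurableSet_WW ρ)).symm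
  rw [h1]
  apply ne_top_of_le_ne_top _ ((lintegral_mono_set (iUnion_subset fun n => pre_sub hd hρ n)).trans
    (hmass ht (by linarith) hsep))
  exact ENNReal.ofReal_ne_top

theorem QQ_zero_iff (d L : ℕ) (c v z : ℂ) : QQ d L c v z = 0 ↔ ∃ j ≤ L, z = vv d c v j := by
  unfold QQ
  rw [Finset.prod_eq_zero_iff]
  constructor
  · rintro ⟨j, hj, h⟩
    exact ⟨j, by have := Finset.mem_range.mp hj; omega, sub_eq_zero.mp h⟩
  · rintro ⟨j, hj, h⟩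
    exact ⟨j, Finset.mem_range.mpr (by omega), sub_eq_zero.mpr h⟩

theorem ae_QQ_ne (d L : ℕ) (c v : ℂ) : ∀ᵐ z : ℂ, QQ d L c v z ≠ 0 := by
  rw [ae_iff]
  have h1 : {z : ℂ | ¬ QQ d L c v z ≠ 0} ⊆ (Finset.range (L + 1)).image (vv d c v) := by
    intro z hz
    simp only [ne_eq, not_not, mem_setOf_eq] at hz
    obtain ⟨j, hj, h⟩ := (QQ_zero_iff d L c v z).mp hz
    simp only [Finset.coe_image, mem_image, Finset.coe_range, mem_Iio]
    exact ⟨j, by omega, h.symm⟩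
  exact measure_mono_null h1 (Finset.measure_zero _ _)

theorem tendsto_W' {d L k : ℕ} (hd : 2 ≤ d) {ω c₀ : ℂ} (h : Orb d L k ω c₀ c₀) {ρ : ℝ}
    (hρ : ‖c₀‖ + 1 ≤ ρ) :
    Tendsto (fun n => ∫⁻ w in WW ρ, ENNReal.ofReal (uu d L k ω c₀ n w)) atTop (nhds 0) := by
  obtain ⟨K, hK⟩ := (isCompact_closedBall (0 : ℂ) (3 * ρ + 3)).exists_bound_of_continuousOn
    (continuous_QQ d L c₀ c₀).continuousOn
  have ha := al_pos hd
  have h1 : ∀ n, ∫⁻ w in WW ρ, ENNReal.ofReal (uu d L k ω c₀ n w) ≤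
      ENNReal.ofReal (|K| ^ al d) *
      ∫⁻ w in WW ρ, ENNReal.ofReal (uu d L k ω c₀ n w / ‖QQ d L c₀ c₀ w‖ ^ al d) := by
    intro n
    rw [← lintegral_const_mul' _ _ ENNReal.ofReal_ne_top]
    apply lintegral_mono_ae
    rw [ae_restrict_iff' (measurableSet_WW ρ)]
    filter_upwards [ae_QQ_ne d L c₀ c₀] with w hw hwW
    have h2 : ‖QQ d L c₀ c₀ w‖ ≤ |K| := (hK w (mem_closedBall_zero_iff.mpr hwW.2)).trans (le_abs_self K)
    have h3 : 0 < ‖QQ d L c₀ c₀ w‖ := norm_pos_iff.mpr hw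
    have h5 : ‖QQ d L c₀ c₀ w‖ ^ al d ≤ |K| ^ al d := Real.rpow_le_rpow h3.le h2 ha.le
    have h6 : 0 < ‖QQ d L c₀ c₀ w‖ ^ al d := Real.rpow_pos_of_pos h3 _
    rw [← ENNReal.ofReal_mul (by positivity)]
    apply ENNReal.ofReal_le_ofReal
    have h4 := uu_nonneg hd L k ω c₀ n w
    rw [mul_div_assoc', le_div_iff₀ h6]
    nlinarith
  have h2 : Tendsto (fun n => ENNReal.ofReal (|K| ^ al d) *
      ∫⁻ w in WW ρ, ENNReal.ofReal (uu d L k ω c₀ n w / ‖QQ d L c₀ c₀ w‖ ^ al d)) atTop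
      (nhds 0) := by
    have := ENNReal.Tendsto.const_mul (tendsto_W hd h hρ) (a := ENNReal.ofReal (|K| ^ al d))
      (Or.inr ENNReal.ofReal_ne_top)
    simpa using this
  exact tendsto_of_tendsto_of_tendsto_of_le_of_le tendsto_const_nhds h2 (fun _ => bot_le) h1

/-- **Decay.** `𝓛^n 1` tends to `0` locally uniformly. -/
theorem decay {d L k : ℕ} (hd : 2 ≤ d) {ω c₀ : ℂ} (h : Orb d L k ω c₀ c₀) (R : ℝ) {ε : ℝ}
    (hε : 0 < ε) : ∃ N : ℕ, ∀ n ≥ N, ∀ z : ℂ, ‖z‖ ≤ R → uu d L k ω c₀ n z ≤ ε := by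
  set ρ := max R (‖c₀‖ + 1) with hρ
  have hρ1 : ‖c₀‖ + 1 ≤ ρ := le_max_right _ _
  have h1 := tendsto_W' hd h hρ1
  have h2 := (ENNReal.tendsto_atTop_zero.mp h1) (ENNReal.ofReal ε) (by positivity)
  obtain ⟨N, hN⟩ := h2
  refine ⟨N, fun n hn z hz => ?_⟩
  have h3 := WL_mean (al_pos hd) (WL_uu hd L k ω c₀ n) (ρ := ρ) (by linarith [norm_nonneg c₀])
    (hz.trans (le_max_left _ _))
  have h4 := h3.trans (hN n hn)
  exact (ENNReal.ofReal_le_ofReal_iff hε.le).mp h4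

end Pool.Agent.TH279.MD
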