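import Mathlib
import Pool.Agent.TH279.MD.Decay2

set_option autoImplicit false

open Set Filter Metric MeasureTheory

namespace Pool.Agent.TH279.MD

theorem vv_period {d L k : ℕ} {ω c v : ℂ} (h : Orb d L k ω c v) (j : ℕ) (hj : k + 1 ≤ j) :
    vv d c v (j + (L - k)) = vv d c v j := by
  obtain ⟨i, rfl⟩ : ∃ i, j = k + 1 + i := ⟨j - (k + 1), by omega⟩
  clear hj
  have hlt := h.lt
  induction i with
  | zero =>
    have h1 : k + 1 + 0 + (L - k) = L + 1 := by omega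
    rw [h1, vv_succ, h.opp, mul_pow, h.root, one_mul, add_zero, ← vv_succ]
  | succ i ih =>
    have h1 : k + 1 + (i + 1) + (L - k) = (k + 1 + i + (L - k)) + 1 := by omega
    rw [h1, vv_succ, ih, show k + 1 + (i + 1) = (k + 1 + i) + 1 by ring, ← vv_succ]

theorem LOP_ge {d L k : ℕ} (hd : 2 ≤ d) {ω c₀ : ℂ} {φ : ℂ → ℝ} (h0 : ∀ z, 0 ≤ φ z) (y : ℂ) :
    ‖EE d L k ω c₀ c₀ y‖ ^ al d / (d : ℝ) ^ 2 * φ y ≤ LOP d L k ω c₀ φ (f d c₀ y) := by
  obtain ⟨ζ, hζ, hy⟩ : ∃ ζ ∈ RU d, y = ζ * rt d (f d c₀ y - c₀) := by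
    have h1 : rt d (f d c₀ y - c₀) ^ d = y ^ d := by
      rw [rt_pow hd]
      unfold f
      ring
    by_cases h0 : rt d (f d c₀ y - c₀) = 0
    · rw [h0, zero_pow (by omega)] at h1
      have : y = 0 := (pow_eq_zero_iff (by omega)).mp h1.symm
      refine ⟨1, one_mem_RU hd, ?_⟩
      rw [h0, mul_zero, this]
    · refine ⟨y / rt d (f d c₀ y - c₀), ?_, by rw [div_mul_cancel₀ _ h0]⟩
      rw [mem_RU hd, div_pow, h1, div_self]
      rw [← h1]
      exact pow_ne_zero _ h0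
  unfold LOP TR
  refine le_trans (le_of_eq ?_) (Finset.single_le_sum
    (f := fun ζ => ‖EE d L k ω c₀ c₀ (ζ * rt d (f d c₀ y - c₀))‖ ^ al d / (d : ℝ) ^ 2 *
      φ (ζ * rt d (f d c₀ y - c₀))) (fun ζ _ => mul_nonneg (by positivity) (h0 _)) hζ)
  rw [← hy]

theorem f_vv (d : ℕ) (c v : ℂ) (j : ℕ) : f d c (vv d c v j) = vv d c v (j + 1) := by
  rw [vv_succ]
  rfl

theorem uu_ge {d L k : ℕ} (hd : 2 ≤ d) {ω c₀ : ℂ} (n : ℕ) :
    ∏ i ∈ Finset.range n, (‖EE d L k ω c₀ c₀ (vv d c₀ c₀ (k + 1 + i))‖ ^ al d / (d : ℝ) ^ 2) ≤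
      uu d L k ω c₀ n (vv d c₀ c₀ (k + 1 + n)) := by
  induction n with
  | zero => simp [uu]
  | succ n ih =>
    rw [Finset.prod_range_succ, uu_succ, show k + 1 + (n + 1) = (k + 1 + n) + 1 by ring, ← f_vv]
    refine le_trans ?_ (LOP_ge hd (uu_nonneg hd L k ω c₀ n) _)
    rw [mul_comm]
    exact mul_le_mul_of_nonneg_left ih (by positivity)

theorem QQ_vv {d L : ℕ} {c v : ℂ} (j : ℕ) (hj : j ≤ L) :
    QQ d L c v (vv d c v j) = 0 := (QQ_zero_iff d L c v _).mpr ⟨j, hj, rfl⟩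

theorem deriv_QQ_ne {d L k : ℕ} {ω c v : ℂ} (h : Orb d L k ω c v) (j : ℕ) (hj : j ≤ L) :
    deriv (QQ d L c v) (vv d c v j) ≠ 0 := by
  have hj' : j ∈ Finset.range (L + 1) := Finset.mem_range.mpr (by omega)
  have h1 : QQ d L c v = fun z => (z - vv d c v j) *
      ∏ i ∈ (Finset.range (L + 1)).erase j, (z - vv d c v i) := by
    funext z
    unfold QQ
    exact (Finset.mul_prod_erase _ (fun i => z - vv d c v i) hj').symm
  have h2 : DifferentiableAt ℂ (fun z => ∏ i ∈ (Finset.range (L + 1)).erase j, (z - vv d c v i))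
      (vv d c v j) := by fun_prop
  have h3 : HasDerivAt (QQ d L c v) (1 * (∏ i ∈ (Finset.range (L + 1)).erase j,
      (vv d c v j - vv d c v i)) + (vv d c v j - vv d c v j) * deriv (fun z =>
        ∏ i ∈ (Finset.range (L + 1)).erase j, (z - vv d c v i)) (vv d c v j)) (vv d c v j) := by
    rw [h1]
    exact ((hasDerivAt_id _).sub_const _).mul h2.hasDerivAt
  rw [h3.deriv, sub_self, zero_mul, add_zero, one_mul, Finset.prod_ne_zero_iff]
  intro i hi
  rw [Finset.mem_erase, Finset.mem_range] at hi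
  rw [sub_ne_zero]
  intro h4
  exact hi.1 (h.inj j hj i (by omega) h4).symm

theorem deriv_rel {d L k : ℕ} (hd : 2 ≤ d) {ω c₀ : ℂ} (h : Orb d L k ω c₀ c₀) (j : ℕ)
    (hj : j ≤ L) :
    deriv (QQ d L c₀ c₀) (vv d c₀ c₀ (j + 1)) * (d * vv d c₀ c₀ j ^ (d - 1)) =
      vv d c₀ c₀ j ^ d * deriv (QQ d L c₀ c₀) (vv d c₀ c₀ j) *
        EE d L k ω c₀ c₀ (vv d c₀ c₀ j) := by
  set y := vv d c₀ c₀ j with hy
  have h1 : HasDerivAt (fun y => QQ d L c₀ c₀ (f d c₀ y))
      (deriv (QQ d L c₀ c₀) (f d c₀ y) * (d * y ^ (d - 1))) y := by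
    have hf : HasDerivAt (f d c₀) (d * y ^ (d - 1)) y := (hasDerivAt_pow d y).add_const c₀
    exact HasDerivAt.comp y (differentiable_QQ d L c₀ c₀ (f d c₀ y)).hasDerivAt hf
  have h2 : HasDerivAt (fun y => (f d c₀ y - c₀) * QQ d L c₀ c₀ y * EE d L k ω c₀ c₀ y)
      (((d * y ^ (d - 1)) * QQ d L c₀ c₀ y + (f d c₀ y - c₀) * deriv (QQ d L c₀ c₀) y) *
        EE d L k ω c₀ c₀ y +
        (f d c₀ y - c₀) * QQ d L c₀ c₀ y * deriv (EE d L k ω c₀ c₀) y) y := by
    have hf : HasDerivAt (fun y => f d c₀ y - c₀) (d * y ^ (d - 1)) y :=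
      ((hasDerivAt_pow d y).add_const c₀).sub_const c₀
    exact (hf.mul (differentiable_QQ d L c₀ c₀ y).hasDerivAt).mul
      (differentiable_EE d L k ω c₀ c₀ y).hasDerivAt
  have h3 : (fun y => QQ d L c₀ c₀ (f d c₀ y)) =
      fun y => (f d c₀ y - c₀) * QQ d L c₀ c₀ y * EE d L k ω c₀ c₀ y :=
    funext fun y => QQ_f hd h y
  have h4 := h1.unique (h3 ▸ h2)
  rw [f_vv] at h4
  rw [h4, QQ_vv j hj, ← f_vv, ← hy]
  unfold f
  ring

/-- the cycle is repelling -/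
theorem repelling {d L k : ℕ} (hd : 2 ≤ d) {ω c₀ : ℂ} (h : Orb d L k ω c₀ c₀) :
    1 < ‖∏ j ∈ Finset.Icc (k + 1) L, ((d : ℂ) * vv d c₀ c₀ j ^ (d - 1))‖ := by
  by_contra hcon
  rw [not_lt] at hcon
  have hlt := h.lt
  have hdR : (0 : ℝ) < d := by
    have : 0 < d := by omega
    exact_mod_cast this
  have ha := al_pos hd
  have ha2 := al_lt hd
  set p := L - k with hp
  have hp1 : 1 ≤ p := by omega
  set μ := ‖∏ j ∈ Finset.Icc (k + 1) L, ((d : ℂ) * vv d c₀ c₀ j ^ (d - 1))‖ with hμ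
  have hper : ∀ N i, vv d c₀ c₀ (k + 1 + (p * N + i)) = vv d c₀ c₀ (k + 1 + i) := by
    intro N
    induction N with
    | zero => intro i; simp
    | succ N ih =>
      intro i
      rw [show k + 1 + (p * (N + 1) + i) = (k + 1 + (p * N + i)) + p by ring,
        vv_period h _ (by omega), ih]
  -- one period
  have h1 : ∏ i ∈ Finset.range p, ((d : ℂ) * vv d c₀ c₀ (k + 1 + i) ^ (d - 1)) =
      ∏ j ∈ Finset.Icc (k + 1) L, ((d : ℂ) * vv d c₀ c₀ j ^ (d - 1)) := by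
    have h2 : Finset.Icc (k + 1) L = Finset.Ico (k + 1) (L + 1) := by
      ext x
      simp only [Finset.mem_Icc, Finset.mem_Ico]
      omega
    rw [h2, Finset.prod_Ico_eq_prod_range, show L + 1 - (k + 1) = p by omega]
  have hne : ∀ j, 0 < ‖vv d c₀ c₀ j‖ := fun j => norm_pos_iff.mpr (vv_ne_zero hd h j)
  set q : ℕ → ℝ := fun n => ‖deriv (QQ d L c₀ c₀) (vv d c₀ c₀ (k + 1 + n))‖ with hq
  set mm : ℕ → ℝ := fun n => ‖(d : ℂ) * vv d c₀ c₀ (k + 1 + n) ^ (d - 1)‖ with hmm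
  have hmm' : ∀ n, mm n = d * ‖vv d c₀ c₀ (k + 1 + n)‖ ^ (d - 1) := by
    intro n
    simp only [hmm]
    rw [norm_mul, norm_pow, Complex.norm_natCast]
  have hmm0 : ∀ n, 0 < mm n := by
    intro n
    rw [hmm' n]
    have := hne (k + 1 + n)
    positivity
  have h2 : ∀ n ≤ p, (∏ i ∈ Finset.range n,
      (‖EE d L k ω c₀ c₀ (vv d c₀ c₀ (k + 1 + i))‖ ^ al d / (d : ℝ) ^ 2)) *
      (∏ i ∈ Finset.range n, mm i ^ (2 - al d)) * q 0 ^ al d = q n ^ al d := by
    intro n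
    induction n with
    | zero => intro _; simp
    | succ n ih =>
      intro hn
      have h3 := ih (by omega)
      have h4 := congrArg norm (deriv_rel hd h (k + 1 + n) (by omega))
      simp only [norm_mul, norm_pow, Complex.norm_natCast] at h4
      have h6 := hne (k + 1 + n)
      set E := ‖EE d L k ω c₀ c₀ (vv d c₀ c₀ (k + 1 + n))‖ with hE
      set y := ‖vv d c₀ c₀ (k + 1 + n)‖ with hy
      have h5 : q (n + 1) * mm n = y ^ d * q n * E := by
        rw [hmm' n]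
        exact h4
      have hq0 : 0 ≤ q (n + 1) := norm_nonneg _
      have hq1 : 0 ≤ q n := norm_nonneg _
      have hE0 : 0 ≤ E := norm_nonneg _
      have h7 : q (n + 1) ^ al d * mm n ^ al d = y ^ (2 * (d - 1)) * q n ^ al d * E ^ al d := by
        rw [← Real.mul_rpow hq0 (hmm0 n).le, h5, Real.mul_rpow (by positivity) hE0,
          Real.mul_rpow (by positivity) hq1, pow_al hd h6.le]
      have h8 : mm n ^ al d * mm n ^ (2 - al d) = mm n ^ 2 := by
        rw [← Real.rpow_add (hmm0 n), show al d + (2 - al d) = (2 : ℕ) by push_cast; ring,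
          Real.rpow_natCast]
      have h9 : mm n ^ 2 = (d : ℝ) ^ 2 * y ^ (2 * (d - 1)) := by
        rw [hmm' n, mul_pow, ← pow_mul, mul_comm (d - 1) 2]
      rw [Finset.prod_range_succ, Finset.prod_range_succ]
      have h10 : q (n + 1) ^ al d = q n ^ al d * (E ^ al d / (d : ℝ) ^ 2) * mm n ^ (2 - al d) := by
        have h11 : q (n + 1) ^ al d * mm n ^ al d =
            (q n ^ al d * (E ^ al d / (d : ℝ) ^ 2) * mm n ^ (2 - al d)) * mm n ^ al d := by
          rw [h7]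
          have : (q n ^ al d * (E ^ al d / (d : ℝ) ^ 2) * mm n ^ (2 - al d)) * mm n ^ al d =
              q n ^ al d * (E ^ al d / (d : ℝ) ^ 2) * (mm n ^ al d * mm n ^ (2 - al d)) := by ring
          rw [this, h8, h9]
          field_simp
        exact mul_right_cancel₀ (Real.rpow_pos_of_pos (hmm0 n) _).ne' h11
      rw [h10, ← h3]
      ring
  have h3 := h2 p le_rfl
  have hq0 : 0 < q 0 := norm_pos_iff.mpr (deriv_QQ_ne h (k + 1 + 0) (by omega))
  have hqp : q p = q 0 := by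
    have := hper 1 0
    simp only [mul_one, add_zero] at this
    simp only [hq, add_zero]
    rw [this]
  set P := ∏ i ∈ Finset.range p,
    (‖EE d L k ω c₀ c₀ (vv d c₀ c₀ (k + 1 + i))‖ ^ al d / (d : ℝ) ^ 2) with hP
  have hμ0 : 0 ≤ μ := norm_nonneg _
  have h4 : P * μ ^ (2 - al d) = 1 := by
    have h5 : μ ^ (2 - al d) = ∏ i ∈ Finset.range p, mm i ^ (2 - al d) := by
      rw [Real.finsetProd_rpow _ _ (fun i _ => (hmm0 i).le)]
      congr 1
      rw [hμ, ← h1, norm_prod]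
    rw [hqp, ← h5] at h3
    have : (P * μ ^ (2 - al d)) * q 0 ^ al d = 1 * q 0 ^ al d := by rw [one_mul]; exact h3
    exact mul_right_cancel₀ (Real.rpow_pos_of_pos hq0 _).ne' this
  have hP1 : 1 ≤ P := by
    have hP0 : 0 ≤ P := Finset.prod_nonneg fun i _ => by positivity
    have h5 : μ ^ (2 - al d) ≤ 1 := Real.rpow_le_one hμ0 hcon (by linarith)
    nlinarith
  have h5 : ∀ N, ∏ i ∈ Finset.range (p * N),
      (‖EE d L k ω c₀ c₀ (vv d c₀ c₀ (k + 1 + i))‖ ^ al d / (d : ℝ) ^ 2) = P ^ N := by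
    intro N
    induction N with
    | zero => simp
    | succ N ih =>
      rw [Nat.mul_succ, Finset.prod_range_add, ih, pow_succ P]
      congr 1
      apply Finset.prod_congr rfl
      intro i _
      rw [hper]
  obtain ⟨N, hN⟩ := decay hd h ‖vv d c₀ c₀ (k + 1)‖ (ε := 1 / 2) (by norm_num)
  have h6 := hN (p * N) (by nlinarith) (vv d c₀ c₀ (k + 1)) le_rfl
  have h7 := uu_ge (L := L) (k := k) (ω := ω) hd (c₀ := c₀) (p * N)
  have h8 := hper N 0
  simp only [add_zero] at h8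
  rw [h5, h8] at h7
  have h9 : 1 ≤ P ^ N := one_le_pow₀ hP1
  linarith

end Pool.Agent.TH279.MD
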