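import Mathlib
import Pool.Agent.TH279.MD.Repel

set_option autoImplicit false

open Set Filter Metric MeasureTheory

namespace Pool.Agent.TH279.MD

/-- existence of the strict supersolution -/
theorem exists_super {d L k : ℕ} (hd : 2 ≤ d) {ω c₀ : ℂ} (h : Orb d L k ω c₀ c₀) (r : ℝ) :
    ∃ h₀ : ℂ → ℝ, Continuous h₀ ∧ (∀ z, 1 ≤ h₀ z) ∧ ∀ z : ℂ, ‖z‖ ≤ r + 1 →
      TR d c₀ (fun y => ‖EE d L k ω c₀ c₀ y‖ ^ al d / (d : ℝ) ^ 2 * h₀ y) z ≤ h₀ z - 1 / 2 := by
  obtain ⟨N, hN⟩ := decay hd h (r + 1) (ε := 1 / 2) (by norm_num)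
  refine ⟨fun z => ∑ i ∈ Finset.range (N + 1), uu d L k ω c₀ i z, ?_, ?_, ?_⟩
  · exact continuous_finsetSum _ fun i _ => uu_cont hd L k ω c₀ i
  · intro z
    have h1 := Finset.single_le_sum (f := fun i => uu d L k ω c₀ i z) (s := Finset.range (N + 1))
      (fun i _ => uu_nonneg hd L k ω c₀ i z) (Finset.mem_range.mpr (by omega : 0 < N + 1))
    exact h1
  · intro z hz
    have h1 : TR d c₀ (fun y => ‖EE d L k ω c₀ c₀ y‖ ^ al d / (d : ℝ) ^ 2 *
        ∑ i ∈ Finset.range (N + 1), uu d L k ω c₀ i y) z =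
        ∑ i ∈ Finset.range (N + 1), uu d L k ω c₀ (i + 1) z := by
      unfold TR
      simp only [Finset.mul_sum]
      rw [Finset.sum_comm]
      apply Finset.sum_congr rfl
      intro i _
      rw [uu_succ]
      rfl
    beta_reduce
    rw [h1]
    have h2 := Finset.sum_range_succ' (fun i => uu d L k ω c₀ i z) (N + 1)
    have h3 := Finset.sum_range_succ (fun i => uu d L k ω c₀ i z) (N + 1)
    have h4 := hN (N + 1) (by omega) z hz
    have h5 : uu d L k ω c₀ 0 z = 1 := rfl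
    have h6 : ∑ i ∈ Finset.range (N + 1), uu d L k ω c₀ (i + 1) z =
        ∑ i ∈ Finset.range (N + 1), uu d L k ω c₀ i z + uu d L k ω c₀ (N + 1) z - 1 := by
      linarith
    rw [h6]
    linarith

theorem SL_succ (d : ℕ) (c : ℂ) (r : ℝ) (n : ℕ) : SL d c r (n + 1) = (f d c) ⁻¹' SL d c r n := rfl

theorem measurableSet_SL (d : ℕ) (c : ℂ) (r : ℝ) (n : ℕ) : MeasurableSet (SL d c r n) :=
  measurableSet_le (continuous_fn d c n).norm.measurable measurable_const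

theorem f_large {d : ℕ} (hd : 2 ≤ d) {c : ℂ} {r : ℝ} (hc : ‖c‖ ≤ 3) (hr : 4 ≤ r) {z : ℂ}
    (hz : r < ‖z‖) : r < ‖f d c z‖ := by
  have h1 := sq_le_f hd (c := c) (z := z) (by linarith)
  nlinarith

theorem SL_anti {d : ℕ} (hd : 2 ≤ d) {c : ℂ} {r : ℝ} (hc : ‖c‖ ≤ 3) (hr : 4 ≤ r) :
    Antitone (SL d c r) := by
  apply antitone_nat_of_succ_le
  intro n z hz
  have h1 : ‖(f d c)^[n + 1] z‖ ≤ r := hz
  rw [Function.iterate_succ_apply'] at h1
  by_contra hcon
  have h2 : r < ‖(f d c)^[n] z‖ := not_le.mp hcon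
  exact absurd (f_large hd hc hr h2) (not_lt.mpr h1)

theorem SL_sub {d : ℕ} (hd : 2 ≤ d) {c : ℂ} {r : ℝ} (hc : ‖c‖ ≤ 3) (hr : 4 ≤ r) (n : ℕ) :
    SL d c r n ⊆ closedBall 0 r := by
  intro z hz
  have h1 := SL_anti hd hc hr (Nat.zero_le n) hz
  rw [mem_closedBall_zero_iff]
  exact h1

/-- weighted mass of the level sets -/
noncomputable def AA (d L : ℕ) (c v : ℂ) (r : ℝ) (h₀ : ℂ → ℝ) (n : ℕ) : ENNReal :=
  ∫⁻ z in SL d c r n, ENNReal.ofReal (h₀ z / ‖QQ d L c v z‖ ^ al d)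

theorem AA_anti {d L : ℕ} (hd : 2 ≤ d) {c v : ℂ} {r : ℝ} (hc : ‖c‖ ≤ 3) (hr : 4 ≤ r)
    (h₀ : ℂ → ℝ) : Antitone (AA d L c v r h₀) :=
  fun _ _ hmn => lintegral_mono_set (SL_anti hd hc hr hmn)

/-- one step of the recursion -/
theorem rec_step {d L k : ℕ} (hd : 2 ≤ d) {ω c v : ℂ} (h : Orb d L k ω c v) {r : ℝ}
    (hc : ‖c‖ ≤ 3) (hr : 4 ≤ r)
    {h₀ : ℂ → ℝ} (hcont : Continuous h₀) (h1 : ∀ z, 1 ≤ h₀ z) {H θ δ q₀ : ℝ} (hδ : 0 < δ)
    (hθ : 0 < θ) (hH : ∀ z, ‖z‖ ≤ r → h₀ z ≤ H) (hq₀ : 0 < q₀)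
    (hq : ∀ z, ‖z‖ < δ → q₀ ≤ ‖QQ d L c v z‖ ^ al d)
    (hp : ∀ w : ℂ, ‖w‖ ≤ r → δ ^ d ≤ ‖w - c‖ →
        TR d c (fun y => (‖f d c y - v‖ * ‖EE d L k ω c v y‖) ^ al d /
          ((d : ℝ) ^ 2 * ‖y‖ ^ (2 * (d - 1))) * h₀ y) w ≤ θ * h₀ w) (n : ℕ) :
    AA d L c v r h₀ (n + 1) ≤ ENNReal.ofReal θ * AA d L c v r h₀ n +
      ENNReal.ofReal (H / q₀) * volume (SL d c r (n + 1) ∩ ball 0 δ) := by
  classical
  set φ : ℂ → ℝ := fun y => if ‖y‖ < δ then 0 else h₀ y with hφ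
  have hφm : Measurable φ := by
    apply Measurable.ite (measurableSet_lt continuous_norm.measurable measurable_const)
      measurable_const hcont.measurable
  have hφ0 : ∀ y, 0 ≤ φ y := by
    intro y
    simp only [hφ]
    split_ifs
    · exact le_rfl
    · exact zero_le_one.trans (h1 y)
  have hH0 : 0 ≤ H := by
    have := (h1 0).trans (hH 0 (by simpa using (by linarith : (0 : ℝ) ≤ r)))
    linarith
  -- split
  have e1 : ∀ y ∈ SL d c r (n + 1), ENNReal.ofReal (h₀ y / ‖QQ d L c v y‖ ^ al d) ≤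
      ENNReal.ofReal (φ y / ‖QQ d L c v y‖ ^ al d) +
        (ball 0 δ).indicator (fun _ => ENNReal.ofReal (H / q₀)) y := by
    intro y hy
    have hyr : ‖y‖ ≤ r := by simpa using SL_sub hd hc hr _ hy
    by_cases hyd : ‖y‖ < δ
    · have h2 : y ∈ ball (0 : ℂ) δ := by simpa using hyd
      rw [indicator_of_mem h2]
      refine le_trans ?_ (le_add_of_nonneg_left bot_le)
      apply ENNReal.ofReal_le_ofReal
      exact div_le_div₀ hH0 (hH y hyr) hq₀ (hq y hyd)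
    · have h2 : φ y = h₀ y := by simp only [hφ, if_neg hyd]
      rw [h2]
      exact le_add_of_nonneg_right bot_le
  have e2 : AA d L c v r h₀ (n + 1) ≤
      (∫⁻ y in SL d c r (n + 1), ENNReal.ofReal (φ y / ‖QQ d L c v y‖ ^ al d)) +
        ∫⁻ y in SL d c r (n + 1), (ball 0 δ).indicator (fun _ => ENNReal.ofReal (H / q₀)) y := by
    unfold AA
    rw [← lintegral_add_right _ (measurable_const.indicator measurableSet_ball)]
    exact setLIntegral_mono' (measurableSet_SL d c r (n + 1)) e1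
  refine e2.trans ?_
  apply add_le_add
  · rw [SL_succ, dualQ hd h (measurableSet_SL d c r n) hφm hφ0]
    unfold AA
    rw [← lintegral_const_mul' _ _ ENNReal.ofReal_ne_top]
    apply setLIntegral_mono' (measurableSet_SL d c r n)
    intro w hw
    have hwr : ‖w‖ ≤ r := by simpa using SL_sub hd hc hr _ hw
    rw [← ENNReal.ofReal_mul hθ.le]
    apply ENNReal.ofReal_le_ofReal
    rw [← mul_div_assoc]
    apply div_le_div_of_nonneg_right _ (by positivity)
    have hs : ∀ ζ ∈ RU d, ‖ζ * rt d (w - c)‖ ^ d = ‖w - c‖ := by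
      intro ζ hζ
      rw [← norm_pow, mul_pow, (mem_RU hd).mp hζ, rt_pow hd, one_mul]
    by_cases hwd : δ ^ d ≤ ‖w - c‖
    · have h3 : ∀ ζ ∈ RU d, φ (ζ * rt d (w - c)) = h₀ (ζ * rt d (w - c)) := by
        intro ζ hζ
        have h4 : ¬ ‖ζ * rt d (w - c)‖ < δ := by
          intro h4
          have : ‖ζ * rt d (w - c)‖ ^ d < δ ^ d :=
            pow_lt_pow_left₀ h4 (norm_nonneg _) (by omega)
          rw [hs ζ hζ] at this
          linarith
        simp only [hφ, if_neg h4]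
      have h5 := hp w hwr hwd
      refine le_trans (le_of_eq ?_) h5
      unfold TR
      apply Finset.sum_congr rfl
      intro ζ hζ
      beta_reduce
      rw [h3 ζ hζ]
    · have h3 : ∀ ζ ∈ RU d, φ (ζ * rt d (w - c)) = 0 := by
        intro ζ hζ
        have h4 : ‖ζ * rt d (w - c)‖ < δ := by
          by_contra h4
          rw [not_lt] at h4
          apply hwd
          rw [← hs ζ hζ]
          exact pow_le_pow_left₀ hδ.le h4 d
        simp only [hφ, if_pos h4]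
      have h5 : TR d c (fun y => (‖f d c y - v‖ * ‖EE d L k ω c v y‖) ^ al d /
          ((d : ℝ) ^ 2 * ‖y‖ ^ (2 * (d - 1))) * φ y) w = 0 := by
        unfold TR
        apply Finset.sum_eq_zero
        intro ζ hζ
        beta_reduce
        rw [h3 ζ hζ, mul_zero]
      rw [h5]
      exact mul_nonneg hθ.le (zero_le_one.trans (h1 w))
  · rw [lintegral_indicator_const measurableSet_ball, Measure.restrict_apply measurableSet_ball,
      inter_comm]

/-- the area of the level set is controlled by the mass -/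
theorem vol_le_AA {d L : ℕ} (hd : 2 ≤ d) {c v : ℂ} {r : ℝ} (hc : ‖c‖ ≤ 3) (hr : 4 ≤ r)
    {h₀ : ℂ → ℝ} (h1 : ∀ z, 1 ≤ h₀ z) {K : ℝ} (hK0 : 0 ≤ K)
    (hK : ∀ z, ‖z‖ ≤ r → ‖QQ d L c v z‖ ^ al d ≤ K) (n : ℕ) :
    volume (SL d c r n) ≤ ENNReal.ofReal K * AA d L c v r h₀ n := by
  unfold AA
  rw [← lintegral_const_mul' _ _ ENNReal.ofReal_ne_top]
  calc volume (SL d c r n) = ∫⁻ z in SL d c r n, 1 := by simp
    _ ≤ ∫⁻ z in SL d c r n, ENNReal.ofReal K *
          ENNReal.ofReal (h₀ z / ‖QQ d L c v z‖ ^ al d) := by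
        apply lintegral_mono_ae
        rw [ae_restrict_iff' (measurableSet_SL d c r n)]
        filter_upwards [ae_QQ_ne d L c v] with z hz hzS
        have hzr : ‖z‖ ≤ r := by simpa using SL_sub hd hc hr _ hzS
        have h2 : 0 < ‖QQ d L c v z‖ ^ al d := Real.rpow_pos_of_pos (norm_pos_iff.mpr hz) _
        rw [← ENNReal.ofReal_mul hK0, ENNReal.one_le_ofReal, mul_div_assoc', le_div_iff₀ h2, one_mul]
        have := hK z hzr
        have := h1 z
        nlinarith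

end Pool.Agent.TH279.MD
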