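import Mathlib
import Pool.Agent.TH279.MD.Rec

set_option autoImplicit false

open Set Filter Metric MeasureTheory

namespace Pool.Agent.TH279.MD

theorem continuous_vv (d j : ℕ) : Continuous (fun p : ℂ × ℂ => vv d p.1 p.2 j) := by
  induction j with
  | zero => exact continuous_snd
  | succ j ih =>
    simp only [vv_succ]
    exact (ih.pow d).add continuous_fst

theorem near_vv (d L : ℕ) (c₀ : ℂ) {e : ℝ} (he : 0 < e) : ∃ ρ : ℝ, 0 < ρ ∧ ∀ c v : ℂ,
    ‖c - c₀‖ ≤ ρ → ‖v - c₀‖ ≤ ρ → ∀ i ≤ L, ‖vv d c v i - vv d c₀ c₀ i‖ ≤ e := by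
  have h1 : ∀ᶠ p in nhds ((c₀, c₀) : ℂ × ℂ), ∀ i ∈ Finset.range (L + 1),
      ‖vv d p.1 p.2 i - vv d c₀ c₀ i‖ < e := by
    rw [Filter.eventually_all_finset]
    intro i _
    have h2 := (continuous_vv d i).tendsto (c₀, c₀)
    have h3 := (tendsto_iff_norm_sub_tendsto_zero.mp h2).eventually (gt_mem_nhds he)
    exact h3
  obtain ⟨ρ, hρ, h2⟩ := Metric.eventually_nhds_iff.mp h1
  refine ⟨ρ / 2, by positivity, ?_⟩
  intro c v hc hv i hi
  have h3 : dist (c, v) (c₀, c₀) < ρ := by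
    rw [Prod.dist_eq, max_lt_iff, dist_eq_norm, dist_eq_norm]
    constructor <;> simp only <;> linarith
  exact (h2 h3 i (Finset.mem_range.mpr (by omega))).le

theorem uniform_consts {d L k : ℕ} (hd : 2 ≤ d) {ω c₀ : ℂ} (h : Orb d L k ω c₀ c₀) :
    ∃ ρ q₀ δ₀ t M : ℝ, 0 < ρ ∧ 0 < q₀ ∧ 0 < δ₀ ∧ 0 < t ∧ 0 < M ∧ ∀ c v : ℂ,
      ‖c - c₀‖ ≤ ρ → ‖v - c₀‖ ≤ ρ → (∀ z, ‖z‖ < δ₀ → q₀ ≤ ‖QQ d L c v z‖ ^ al d) ∧
        (∀ i ≤ L, ∀ j ≤ L, i ≠ j → 2 * t ≤ ‖vv d c v i - vv d c v j‖) ∧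
        ∀ i ≤ L, ‖vv d c v i‖ ≤ M := by
  obtain ⟨t, ht, hsep⟩ := exists_sep h
  obtain ⟨M, hM, hb⟩ := exists_bd d L c₀ c₀
  -- lower bound of the norms
  obtain ⟨b, hb0, hbl⟩ : ∃ b : ℝ, 0 < b ∧ ∀ i ≤ L, 2 * b ≤ ‖vv d c₀ c₀ i‖ := by
    obtain ⟨i, _, hmin⟩ := Finset.exists_min_image (Finset.range (L + 1)) (fun i => ‖vv d c₀ c₀ i‖)
      ⟨0, by simp⟩
    refine ⟨‖vv d c₀ c₀ i‖ / 2, ?_, ?_⟩
    · have := norm_pos_iff.mpr (vv_ne_zero hd h i)
      positivity
    · intro j hj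
      have := hmin j (Finset.mem_range.mpr (by omega))
      linarith
  obtain ⟨ρ, hρ, hnear⟩ := near_vv d L c₀ (e := min b (min (t / 2) 1)) (by positivity)
  refine ⟨ρ, ((b / 2) ^ (L + 1)) ^ al d, b / 2, t / 2, M + 1, hρ, by positivity, by positivity,
    by positivity, by positivity, ?_⟩
  intro c v hc hv
  have hn := hnear c v hc hv
  refine ⟨?_, ?_, ?_⟩
  · intro z hz
    apply Real.rpow_le_rpow (by positivity) _ (al_pos hd).le
    unfold QQ
    rw [norm_prod]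
    calc (b / 2) ^ (L + 1) = ∏ _i ∈ Finset.range (L + 1), (b / 2) := by
          rw [Finset.prod_const, Finset.card_range]
      _ ≤ _ := by
          apply Finset.prod_le_prod (fun _ _ => by positivity)
          intro i hi
          have hi' : i ≤ L := by have := Finset.mem_range.mp hi; omega
          have h2 := (hn i hi').trans (min_le_left _ _)
          have h3 := hbl i hi'
          have h4 : ‖vv d c₀ c₀ i‖ ≤ ‖vv d c v i - vv d c₀ c₀ i‖ + (‖z‖ + ‖z - vv d c v i‖) := by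
            have e1 : vv d c₀ c₀ i = -(vv d c v i - vv d c₀ c₀ i) + (z - (z - vv d c v i)) := by ring
            calc ‖vv d c₀ c₀ i‖ = ‖-(vv d c v i - vv d c₀ c₀ i) + (z - (z - vv d c v i))‖ := by
                  rw [← e1]
              _ ≤ ‖-(vv d c v i - vv d c₀ c₀ i)‖ + ‖z - (z - vv d c v i)‖ := norm_add_le _ _
              _ ≤ _ := by
                rw [norm_neg]
                gcongr
                exact norm_sub_le _ _
          linarith
  · intro i hi j hj hij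
    have h2 := (hn i hi).trans ((min_le_right _ _).trans (min_le_left _ _))
    have h3 := (hn j hj).trans ((min_le_right _ _).trans (min_le_left _ _))
    have h4 := hsep i hi j hj hij
    have h5 : ‖vv d c₀ c₀ i - vv d c₀ c₀ j‖ ≤ ‖vv d c v i - vv d c v j‖ +
        (‖vv d c v i - vv d c₀ c₀ i‖ + ‖vv d c v j - vv d c₀ c₀ j‖) := by
      have e1 : vv d c₀ c₀ i - vv d c₀ c₀ j = (vv d c v i - vv d c v j) -
          ((vv d c v i - vv d c₀ c₀ i) - (vv d c v j - vv d c₀ c₀ j)) := by ring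
      rw [e1]
      refine (norm_sub_le _ _).trans ?_
      gcongr
      exact norm_sub_le _ _
    linarith
  · intro i hi
    have h2 := (hn i hi).trans ((min_le_right _ _).trans (min_le_right _ _))
    have h3 := hb i hi
    have h4 : ‖vv d c v i‖ ≤ ‖vv d c v i - vv d c₀ c₀ i‖ + ‖vv d c₀ c₀ i‖ := by
      have e1 : vv d c v i = (vv d c v i - vv d c₀ c₀ i) + vv d c₀ c₀ i := by ring
      calc ‖vv d c v i‖ = ‖(vv d c v i - vv d c₀ c₀ i) + vv d c₀ c₀ i‖ := by rw [← e1]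
        _ ≤ _ := norm_add_le _ _
    linarith

theorem QQ_upper {d L : ℕ} {c v : ℂ} {M r : ℝ} (hb : ∀ i ≤ L, ‖vv d c v i‖ ≤ M) {z : ℂ}
    (hz : ‖z‖ ≤ r) : ‖QQ d L c v z‖ ≤ (r + M) ^ (L + 1) := by
  unfold QQ
  rw [norm_prod]
  calc _ ≤ ∏ _i ∈ Finset.range (L + 1), (r + M) := by
        apply Finset.prod_le_prod (fun _ _ => norm_nonneg _)
        intro i hi
        have hi' : i ≤ L := by have := Finset.mem_range.mp hi; omega
        refine (norm_sub_le _ _).trans (add_le_add hz (hb i hi'))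
    _ = _ := by rw [Finset.prod_const, Finset.card_range]

/-- abstract iteration, one block -/
theorem seq_block {m : ℕ} {a : ℕ → ℝ} {θ : ℝ} {g : ℝ → ℝ} (hθ : 0 ≤ θ) (hθ1 : θ < 1)
    (hg0 : ∀ x, 0 ≤ x → 0 ≤ g x) (hg : ∀ x y, 0 ≤ x → x ≤ y → g x ≤ g y)
    (ha0 : ∀ n, 0 ≤ a n) (anti : Antitone a)
    (h : ∀ n, a (n + m + 1) ≤ θ * a (n + m) + g (a n)) (i n : ℕ) :
    a (n + m + i) ≤ θ ^ i * a n + g (a n) / (1 - θ) := by
  have h1 : 0 < 1 - θ := by linarith
  induction i with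
  | zero =>
    have h2 : a (n + m + 0) ≤ a n := anti (by omega)
    have h3 : 0 ≤ g (a n) / (1 - θ) := div_nonneg (hg0 _ (ha0 n)) h1.le
    simp only [pow_zero, one_mul]
    linarith
  | succ i ih =>
    have h2 := h (n + i)
    have h3 : a (n + i) ≤ a n := anti (by omega)
    have h4 : g (a (n + i)) ≤ g (a n) := hg _ _ (ha0 _) h3
    have e1 : n + m + (i + 1) = n + i + m + 1 := by ring
    have e2 : n + i + m = n + m + i := by ring
    rw [e1]
    rw [e2] at h2 ⊢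
    have h5 : θ * a (n + m + i) ≤ θ * (θ ^ i * a n + g (a n) / (1 - θ)) :=
      mul_le_mul_of_nonneg_left ih hθ
    have h6 : θ * (θ ^ i * a n + g (a n) / (1 - θ)) + g (a n) =
        θ ^ (i + 1) * a n + g (a n) / (1 - θ) := by
      field_simp
      ring
    linarith

/-- abstract decay -/
theorem seq_decay {T : ℕ} {a : ℕ → ℝ} {b β A X : ℝ} (hb1 : b < 1) (hX : 0 ≤ X)
    (hβX : 4 * β ≤ X ^ (1 - b)) (anti : Antitone a) (hA : a 0 ≤ A)
    (h : ∀ n, a (n + T) ≤ a n / 2 + β * a n ^ b) (j : ℕ) :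
    a (j * T) ≤ max (A * (3 / 4) ^ j) X := by
  induction j with
  | zero => simp [hA]
  | succ j ih =>
    rw [Nat.succ_mul]
    rcases le_or_gt (a (j * T)) X with h1 | h1
    · have h2 : a (j * T + T) ≤ a (j * T) := anti (by omega)
      exact (h2.trans h1).trans (le_max_right _ _)
    · have h2 : a (j * T) ≤ A * (3 / 4) ^ j := by
        rcases le_max_iff.mp ih with h3 | h3
        · exact h3
        · linarith
      have h0 : 0 < a (j * T) := lt_of_le_of_lt hX h1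
      have h3 : 4 * β ≤ a (j * T) ^ (1 - b) :=
        hβX.trans (Real.rpow_le_rpow hX h1.le (by linarith))
      have h4 := h (j * T)
      have h5 : a (j * T) ^ (1 - b) * a (j * T) ^ b = a (j * T) := by
        rw [← Real.rpow_add h0, show 1 - b + b = 1 by ring, Real.rpow_one]
      have h6 : β * a (j * T) ^ b ≤ a (j * T) / 4 := by
        have h7 : 0 ≤ a (j * T) ^ b := Real.rpow_nonneg h0.le _
        have h8 := mul_le_mul_of_nonneg_right h3 h7
        rw [h5] at h8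
        linarith
      refine le_trans ?_ (le_max_left _ _)
      rw [pow_succ]
      linarith

theorem pow_two_sub_al {d : ℕ} (hd : 2 ≤ d) {x : ℝ} (hx : 0 ≤ x) : (x ^ d) ^ (2 - al d) = x ^ 2 := by
  have h : (2 : ℝ) ≤ d := by exact_mod_cast hd
  rw [← Real.rpow_natCast x d, ← Real.rpow_mul hx]
  have h2 : (d : ℝ) * (2 - al d) = ((2 : ℕ) : ℝ) := by
    unfold al
    push_cast
    field_simp
    ring
  rw [h2, Real.rpow_natCast]

end Pool.Agent.TH279.MD
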