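import Mathlib
import Pool.Agent.TH279.MD.Unif
import Pool.Agent.TH136.Tip.Push

set_option autoImplicit false

open Set Filter Metric MeasureTheory

namespace Pool.Agent.TH279.MD

open Pool.Agent.TH136.Tip (lintegral_holo)

theorem vol_SL_ne_top {d : ℕ} (hd : 2 ≤ d) {c : ℂ} {r : ℝ} (hc : ‖c‖ ≤ 3) (hr : 4 ≤ r) (n : ℕ) :
    volume (SL d c r n) ≠ ⊤ :=
  ne_top_of_le_ne_top (isCompact_closedBall (0 : ℂ) r).measure_lt_top.ne
    (measure_mono (SL_sub hd hc hr n))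

theorem vol_scale {d : ℕ} (hd : 2 ≤ d) {c v : ℂ} {r s κ : ℝ} {n m N : ℕ} (hs : 0 < s)
    (hκ : 0 < κ) (hc : ‖c‖ ≤ 3)
    (hr : 4 ≤ r) (hn : n ≤ m) (hinj : InjOn ((f d c)^[n]) (ball v s))
    (hder : ∀ z ∈ ball v s, κ / s ≤ ‖deriv ((f d c)^[n]) z‖) :
    volume (SL d c r (N + m) ∩ ball v s) ≤
      ENNReal.ofReal ((1 / κ ^ 2) * s ^ 2 * (volume (SL d c r N)).toReal) := by
  set A := SL d c r (N + m) ∩ ball v s with hA
  have hAm : MeasurableSet A := (measurableSet_SL d c r (N + m)).inter measurableSet_ball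
  have h1 := lintegral_holo (differentiable_fn d c n) hAm (hinj.mono inter_subset_right) (fun _ => 1)
  simp only [mul_one, lintegral_one, Measure.restrict_apply_univ] at h1
  have h2 : (f d c)^[n] '' A ⊆ SL d c r N := by
    rintro _ ⟨z, hz, rfl⟩
    have h3 : z ∈ SL d c r ((N + m - n) + n) := by
      rw [Nat.sub_add_cancel (by omega)]
      exact hz.1
    have h4 : (f d c)^[n] z ∈ SL d c r (N + m - n) := by
      have h5 : ‖(f d c)^[(N + m - n) + n] z‖ ≤ r := h3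
      rw [Function.iterate_add_apply] at h5
      exact h5
    exact SL_anti hd hc hr (by omega) h4
  have h3 : ENNReal.ofReal ((κ / s) ^ 2) * volume A ≤ volume (SL d c r N) := by
    calc ENNReal.ofReal ((κ / s) ^ 2) * volume A = ∫⁻ z in A, ENNReal.ofReal ((κ / s) ^ 2) := by
          rw [setLIntegral_const]
      _ ≤ ∫⁻ z in A, ENNReal.ofReal (‖deriv ((f d c)^[n]) z‖ ^ 2) := by
          apply setLIntegral_mono' hAm
          intro z hz
          apply ENNReal.ofReal_le_ofReal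
          exact pow_le_pow_left₀ (by positivity) (hder z hz.2) 2
      _ = volume ((f d c)^[n] '' A) := h1
      _ ≤ _ := measure_mono h2
  have h4 : volume A ≠ ⊤ := ne_top_of_le_ne_top (vol_SL_ne_top hd hc hr (N + m))
    (measure_mono inter_subset_left)
  rw [← ENNReal.ofReal_toReal h4]
  apply ENNReal.ofReal_le_ofReal
  have h5 := ENNReal.toReal_mono (vol_SL_ne_top hd hc hr N) h3
  rw [ENNReal.toReal_mul, ENNReal.toReal_ofReal (by positivity)] at h5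
  have h6 : (volume A).toReal = (1 / κ ^ 2) * s ^ 2 * ((κ / s) ^ 2 * (volume A).toReal) := by
    field_simp
  rw [h6]
  gcongr

theorem card_RU {d : ℕ} (hd : 2 ≤ d) : (RU d).card = d :=
  (Complex.isPrimitiveRoot_exp d (by omega)).card_nthRootsFinset

theorem vol_pre' {d : ℕ} (hd : 2 ≤ d) {c : ℂ} {S : Set ℂ} (hS : MeasurableSet S) {X : ℝ}
    (h : ∫⁻ w in S, ENNReal.ofReal (1 / ‖w - c‖ ^ al d) ≤ ENNReal.ofReal X) :
    volume ((f d c) ⁻¹' S) ≤ ENNReal.ofReal X := by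
  have hdR : (1 : ℝ) ≤ d := by exact_mod_cast (by omega : 1 ≤ d)
  have h2 := dual hd c (S := S) hS (ψ := fun _ => 1) measurable_const
  rw [lintegral_one, Measure.restrict_apply_univ] at h2
  rw [h2]
  refine le_trans (lintegral_mono fun w => ?_) h
  beta_reduce
  rw [Finset.sum_const, card_RU hd, nsmul_eq_mul, mul_one, ← ENNReal.ofReal_natCast,
    ← ENNReal.ofReal_mul (by positivity)]
  apply ENNReal.ofReal_le_ofReal
  by_cases h0 : ‖w - c‖ = 0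
  · rw [h0, Real.zero_rpow (al_pos hd).ne']; simp
  · have h1 : 0 < ‖w - c‖ := lt_of_le_of_ne (norm_nonneg _) (Ne.symm h0)
    have h3 : 0 < ‖w - c‖ ^ al d := Real.rpow_pos_of_pos h1 _
    rw [mul_one_div, div_le_div_iff₀ (by positivity) h3, one_mul]
    have h4 : (d : ℝ) ≤ (d : ℝ) ^ 2 := by nlinarith
    exact mul_le_mul_of_nonneg_right h4 h3.le

theorem vol_pre {d : ℕ} (hd : 2 ≤ d) {c : ℂ} {δ : ℝ} (hδ : 0 < δ) {S : Set ℂ}
    (hS : MeasurableSet S) {X : ℝ}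
    (h : ∫⁻ w in S ∩ ball c (δ ^ d), ENNReal.ofReal (1 / ‖w - c‖ ^ al d) ≤ ENNReal.ofReal X) :
    volume ((f d c) ⁻¹' S ∩ ball 0 δ) ≤ ENNReal.ofReal X := by
  have h1 : (f d c) ⁻¹' S ∩ ball 0 δ = (f d c) ⁻¹' (S ∩ ball c (δ ^ d)) := by
    ext y
    simp only [mem_inter_iff, mem_preimage, mem_ball, dist_zero_right]
    have h2 : dist (f d c y) c < δ ^ d ↔ ‖y‖ < δ := by
      unfold f
      rw [dist_eq_norm, add_sub_cancel_right, norm_pow]
      exact pow_lt_pow_iff_left₀ (norm_nonneg _) hδ.le (by omega)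
    rw [h2]
  rw [h1]
  exact vol_pre' hd (hS.inter measurableSet_ball) h

/-- The real recursion near a Misiurewicz parameter. -/
theorem recursion {d L k : ℕ} (hd : 2 ≤ d) {ω c₀ : ℂ} (h : Orb d L k ω c₀ c₀) (hc₀ : ‖c₀‖ ≤ 2)
    {r : ℝ} (hr : 4 ≤ r) :
    ∃ (ε₀ C B K C₈ : ℝ) (i₀ : ℕ), 0 < ε₀ ∧ ε₀ ≤ 1 ∧ 0 ≤ C ∧ 0 ≤ B ∧ 0 ≤ K ∧ 0 ≤ C₈ ∧
      ∀ (c : ℂ), c ≠ c₀ → ‖c - c₀‖ ≤ ε₀ → ∃ (a : ℕ → ℝ) (m : ℕ), (∀ n, 0 ≤ a n) ∧ Antitone a ∧
        a 0 ≤ B ∧ (∀ n, a (n + (m + i₀)) ≤ a n / 2 +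
          C₈ * (‖c - c₀‖ ^ 2) ^ (1 - al d / 2) * a n ^ (1 - al d / 2)) ∧
        (m : ℝ) ≤ C * (1 + |Real.log ‖c - c₀‖|) ∧
        ∀ n, volume (SL d c r n) ≤ ENNReal.ofReal (K * a n) := by
  have hα0 := al_pos hd
  have hα1 := one_le_al hd
  have hα2 := al_lt hd
  have hb0 : 0 < 1 - al d / 2 := by linarith
  have hb1 : 1 - al d / 2 ≤ 1 := by linarith
  set b := 1 - al d / 2 with hb
  obtain ⟨h₀, hcont, h1, hsup⟩ := exists_super hd h r
  obtain ⟨H, hH⟩ := (isCompact_closedBall (0 : ℂ) r).exists_bound_of_continuousOn hcont.continuousOn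
  have hH' : ∀ z, ‖z‖ ≤ r → h₀ z ≤ H := fun z hz =>
    (le_abs_self _).trans (hH z (mem_closedBall_zero_iff.mpr hz))
  have hH0 : 1 ≤ H := (h1 0).trans (hH' 0 (by simpa using (by linarith : (0 : ℝ) ≤ r)))
  obtain ⟨θ, hθ0, hθ1, hpert⟩ := perturb hd hcont h1 (by linarith : (0 : ℝ) < r) hsup
  obtain ⟨ρ₁, C₃, vf, hρ₁, hC₃, -, -, hcontin⟩ := cont hd h (repelling hd h)
  obtain ⟨ρ₂, κ, s₀', C₄, hρ₂, hκ, hs₀', hC₄, hexp⟩ := expand hd h (repelling hd h)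
  set s₀ := min s₀' 1 with hs₀
  have hs₀0 : 0 < s₀ := by positivity
  have hs₀1 : s₀ ≤ 1 := min_le_right _ _
  have hs₀2 : s₀ ≤ s₀' := min_le_left _ _
  obtain ⟨C₅, hC₅, hnear⟩ := near_crit (al d) (1 / κ ^ 2) s₀ hα0 hα2 (by positivity) hs₀0
  obtain ⟨ρ₃, q₀, δ₀, t, M, hρ₃, hq₀, hδ₀, ht, hM, hunif⟩ := uniform_consts hd h
  obtain ⟨C₆, hC₆, hmass⟩ := mass_bound hα0 hα2
  -- constants
  set K : ℝ := ((r + M) ^ (L + 1)) ^ al d with hK
  have hK1 : 1 ≤ K := Real.one_le_rpow (one_le_pow₀ (by linarith)) hα0.le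
  set C₇ : ℝ := H / q₀ * C₅ * K with hC₇
  have hC₇0 : 0 < C₇ := by positivity
  -- δ
  obtain ⟨δ, hδ, hδ1, hδ2, hδ3⟩ : ∃ δ : ℝ, 0 < δ ∧ δ ≤ δ₀ ∧ δ ^ d ≤ s₀ / 8 ∧
      C₇ * δ ^ 2 ≤ (1 - θ) / 4 := by
    set D := min 1 (min δ₀ (min (s₀ / 8) ((1 - θ) / (4 * C₇)))) with hD
    have hD0 : 0 < D := by
      have : 0 < 1 - θ := by linarith
      positivity
    have hD1 : D ≤ 1 := min_le_left _ _
    have hDD : D ^ 2 ≤ D := by nlinarith
    have hDd : D ^ d ≤ D := by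
      calc D ^ d ≤ D ^ 2 := pow_le_pow_of_le_one hD0.le hD1 hd
        _ ≤ D := hDD
    refine ⟨D, hD0, (min_le_right _ _).trans (min_le_left _ _), ?_, ?_⟩
    · exact hDd.trans ((min_le_right _ _).trans ((min_le_right _ _).trans (min_le_left _ _)))
    · have h2 : D ≤ (1 - θ) / (4 * C₇) :=
        (min_le_right _ _).trans ((min_le_right _ _).trans (min_le_right _ _))
      have h3 : D * (4 * C₇) ≤ 1 - θ := by rwa [le_div_iff₀ (by positivity)] at h2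
      have h4 := mul_le_mul_of_nonneg_left hDD hC₇0.le
      linarith
  obtain ⟨ρ₄, hρ₄, hpert⟩ := hpert δ hδ
  obtain ⟨i₀, hi₀⟩ : ∃ i₀ : ℕ, θ ^ i₀ ≤ 1 / 4 := by
    obtain ⟨i, hi⟩ := exists_pow_lt_of_lt_one (by norm_num : (0 : ℝ) < 1 / 4) hθ1
    exact ⟨i, hi.le⟩
  set ρ := min (min (ρ₁ / 2) ρ₂) (min ρ₃ ρ₄) with hρ
  have hρ0 : 0 < ρ := by positivity
  set ε₀ := min 1 (min (ρ / (1 + C₃)) (s₀ / (8 * (1 + C₃)))) with hε₀
  have hε₀0 : 0 < ε₀ := by positivity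
  set B : ℝ := H * ((L + 1) * ((1 / t ^ L) ^ al d * (C₆ * (4 * r ^ 2) ^ (1 - al d / 2)))) with hB
  set C₈ : ℝ := C₇ * (1 + C₃) ^ 2 / (1 - θ) with hC₈
  have h1θ : 0 < 1 - θ := by linarith
  set E : ℝ := |Real.log (1 + C₃)| with hE
  have hE0 : 0 ≤ E := abs_nonneg _
  refine ⟨ε₀, C₄ * (1 + E) + 1, B, K, C₈, i₀ + 1, hε₀0, min_le_left _ _, by positivity,
    by positivity, by linarith, by positivity, ?_⟩
  intro c hcc hce
  have he0 : 0 < ‖c - c₀‖ := norm_pos_iff.mpr (sub_ne_zero.mpr hcc)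
  have he1 : ‖c - c₀‖ ≤ ρ / (1 + C₃) := hce.trans ((min_le_right _ _).trans (min_le_left _ _))
  have he2 : ‖c - c₀‖ ≤ s₀ / (8 * (1 + C₃)) :=
    hce.trans ((min_le_right _ _).trans (min_le_right _ _))
  have he3 : ‖c - c₀‖ ≤ 1 := hce.trans (min_le_left _ _)
  rw [le_div_iff₀ (by positivity)] at he1 he2
  have hp0 : 0 ≤ C₃ * ‖c - c₀‖ := by positivity
  have he1' : ‖c - c₀‖ + C₃ * ‖c - c₀‖ ≤ ρ := by
    have h2 : ‖c - c₀‖ * (1 + C₃) = ‖c - c₀‖ + C₃ * ‖c - c₀‖ := by ring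
    linarith
  have hcρ : ‖c - c₀‖ ≤ ρ := by linarith
  have hρ1 : ρ ≤ ρ₁ / 2 := (min_le_left _ _).trans (min_le_left _ _)
  have hρ2 : ρ ≤ ρ₂ := (min_le_left _ _).trans (min_le_right _ _)
  have hρ3 : ρ ≤ ρ₃ := (min_le_right _ _).trans (min_le_left _ _)
  have hρ4 : ρ ≤ ρ₄ := (min_le_right _ _).trans (min_le_right _ _)
  have hc3 : ‖c‖ ≤ 3 := by
    have h2 : ‖c‖ ≤ ‖c - c₀‖ + ‖c₀‖ := by
      calc ‖c‖ = ‖(c - c₀) + c₀‖ := by congr 1; ring
        _ ≤ _ := norm_add_le _ _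
    linarith
  obtain ⟨hv, horb⟩ := hcontin c (by rw [mem_ball, dist_eq_norm]; linarith)
  set v := vf c with hvdef
  have hvρ : ‖v - c₀‖ ≤ ρ := by linarith
  set η := (1 + C₃) * ‖c - c₀‖ with hη
  have hη0 : 0 < η := by positivity
  have hη1 : ‖c - v‖ ≤ η := by
    have h2 : ‖c - v‖ ≤ ‖c - c₀‖ + ‖v - c₀‖ := by
      calc ‖c - v‖ = ‖(c - c₀) - (v - c₀)‖ := by congr 1; ring
        _ ≤ _ := norm_sub_le _ _
    have h3 : η = ‖c - c₀‖ + C₃ * ‖c - c₀‖ := by rw [hη]; ring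
    linarith
  have hη2 : η ≤ s₀ / 8 := by
    have h3 : ‖c - c₀‖ * (8 * (1 + C₃)) = 8 * η := by rw [hη]; ring
    linarith
  obtain ⟨hu1, hu2, hu3⟩ := hunif c v (hcρ.trans hρ3) (hvρ.trans hρ3)
  have hQK : ∀ z, ‖z‖ ≤ r → ‖QQ d L c v z‖ ^ al d ≤ K := fun z hz =>
    Real.rpow_le_rpow (norm_nonneg _) (QQ_upper hu3 hz) hα0.le
  -- number of steps
  set m := ⌈C₄ * (1 + |Real.log η|)⌉₊ with hm
  -- the masses
  have hA0 : AA d L c v r h₀ 0 ≤ ENNReal.ofReal B := by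
    have h2 := hmass (d := d) (L := L) (c := c) (v := v) ht (by linarith : 0 < r) hu2
    calc AA d L c v r h₀ 0 ≤ ∫⁻ z in closedBall 0 r, ENNReal.ofReal (h₀ z / ‖QQ d L c v z‖ ^ al d) :=
          lintegral_mono_set (SL_sub hd hc3 hr 0)
      _ ≤ ∫⁻ z in closedBall 0 r, ENNReal.ofReal H *
            ENNReal.ofReal (1 / ‖QQ d L c v z‖ ^ al d) := by
          apply setLIntegral_mono' measurableSet_closedBall
          intro z hz
          rw [← ENNReal.ofReal_mul (by linarith)]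
          apply ENNReal.ofReal_le_ofReal
          rw [mul_one_div]
          exact div_le_div_of_nonneg_right (hH' z (mem_closedBall_zero_iff.mp hz)) (by positivity)
      _ = ENNReal.ofReal H * ∫⁻ z in closedBall 0 r, ENNReal.ofReal (1 / ‖QQ d L c v z‖ ^ al d) :=
          lintegral_const_mul' _ _ ENNReal.ofReal_ne_top
      _ ≤ ENNReal.ofReal H * ENNReal.ofReal ((L + 1) * ((1 / t ^ L) ^ al d *
            (C₆ * (4 * r ^ 2) ^ (1 - al d / 2)))) := by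
          gcongr
      _ = ENNReal.ofReal B := by rw [← ENNReal.ofReal_mul (by linarith)]
  have hAanti : Antitone (AA d L c v r h₀) := AA_anti hd hc3 hr h₀
  have hAfin : ∀ n, AA d L c v r h₀ n ≠ ⊤ := fun n =>
    ne_top_of_le_ne_top ENNReal.ofReal_ne_top ((hAanti (Nat.zero_le n)).trans hA0)
  set a : ℕ → ℝ := fun n => (AA d L c v r h₀ n).toReal with ha
  have ha0 : ∀ n, 0 ≤ a n := fun n => ENNReal.toReal_nonneg
  have haanti : Antitone a := fun i j hij => ENNReal.toReal_mono (hAfin i) (hAanti hij)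
  have haB : a 0 ≤ B := by
    have := ENNReal.toReal_mono ENNReal.ofReal_ne_top hA0
    rwa [ENNReal.toReal_ofReal (by positivity)] at this
  have hvol : ∀ n, volume (SL d c r n) ≤ ENNReal.ofReal (K * a n) := by
    intro n
    have h2 := vol_le_AA (L := L) (c := c) (v := v) hd hc3 hr h1 (by linarith) hQK n
    rw [ENNReal.ofReal_mul (by linarith), ENNReal.ofReal_toReal (hAfin n)]
    exact h2
  have hvolr : ∀ n, (volume (SL d c r n)).toReal ≤ K * a n := by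
    intro n
    have h2 := ENNReal.toReal_mono ENNReal.ofReal_ne_top (hvol n)
    rwa [ENNReal.toReal_ofReal (mul_nonneg (by linarith) (ha0 n))] at h2
  -- the error term
  set g : ℝ → ℝ := fun x => C₇ * δ ^ 2 * x + C₇ * ((1 + C₃) ^ 2 * (‖c - c₀‖ ^ 2) ^ b * x ^ b) with hg
  have hg0 : ∀ x, 0 ≤ x → 0 ≤ g x := by
    intro x hx
    simp only [hg]
    positivity
  have hgm : ∀ x y, 0 ≤ x → x ≤ y → g x ≤ g y := by
    intro x y hx hxy
    simp only [hg]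
    have h2 : x ^ b ≤ y ^ b := Real.rpow_le_rpow hx hxy hb0.le
    gcongr
  -- the recursion
  have hrec : ∀ n, a (n + m + 1) ≤ θ * a (n + m) + g (a n) := by
    intro n
    set V := (volume (SL d c r n)).toReal with hV
    have hV0 : 0 ≤ V := ENNReal.toReal_nonneg
    have hsc : ∀ s : ℝ, η ≤ s → s ≤ s₀ → volume (SL d c r (n + m) ∩ ball v s) ≤
        ENNReal.ofReal ((1 / κ ^ 2) * s ^ 2 * V) := by
      intro s hs1 hs2
      have hs0 : 0 < s := hη0.trans_le hs1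
      obtain ⟨n', hn1, hn2, hn3⟩ := hexp c v (hcρ.trans hρ2) (hvρ.trans hρ2) horb s hs0
        (hs2.trans hs₀2)
      have hn' : n' ≤ m := by
        have h2 : |Real.log s| ≤ |Real.log η| := by
          rw [abs_of_nonpos (Real.log_nonpos hs0.le (by linarith)),
            abs_of_nonpos (Real.log_nonpos hη0.le (by linarith))]
          exact neg_le_neg (Real.log_le_log hη0 hs1)
        have h3 : (n' : ℝ) ≤ C₄ * (1 + |Real.log η|) := hn1.trans (by gcongr)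
        exact_mod_cast h3.trans (Nat.le_ceil _)
      exact vol_scale hd hs0 hκ hc3 hr hn' hn2 hn3
    have h2 := hnear c v η V (δ ^ d) (SL d c r (n + m)) (measurableSet_SL d c r (n + m)) hη0 hη1
      hV0 (by positivity) hη2 hδ2 hsc
    rw [pow_two_sub_al hd hδ.le, ← hb] at h2
    have h3 := vol_pre hd hδ (measurableSet_SL d c r (n + m)) h2
    rw [← SL_succ] at h3
    have h4 := rec_step hd horb hc3 hr hcont h1 hδ hθ0 hH' hq₀
      (fun z hz => hu1 z (hz.trans_le hδ1)) (hpert c v (hcρ.trans hρ4) (hvρ.trans hρ4)) (n + m)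
    have hnn : 0 ≤ C₅ * (δ ^ 2 * V + (η ^ 2 * V) ^ b) := by positivity
    have h5 : AA d L c v r h₀ (n + m + 1) ≤ ENNReal.ofReal (θ * a (n + m) +
        H / q₀ * (C₅ * (δ ^ 2 * V + (η ^ 2 * V) ^ b))) := by
      refine h4.trans ?_
      rw [ENNReal.ofReal_add (mul_nonneg hθ0.le (ha0 _)) (by positivity),
        ENNReal.ofReal_mul hθ0.le, ENNReal.ofReal_toReal (hAfin _),
        ENNReal.ofReal_mul (by positivity)]
      gcongr
    have h6 := ENNReal.toReal_mono ENNReal.ofReal_ne_top h5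
    rw [ENNReal.toReal_ofReal (add_nonneg (mul_nonneg hθ0.le (ha0 _)) (by positivity))] at h6
    have h7 : a (n + m + 1) ≤ θ * a (n + m) + H / q₀ * (C₅ * (δ ^ 2 * V + (η ^ 2 * V) ^ b)) := h6
    have h8 : V ≤ K * a n := hvolr n
    have h9 : (η ^ 2 * V) ^ b ≤ K * ((1 + C₃) ^ 2 * (‖c - c₀‖ ^ 2) ^ b * a n ^ b) := by
      have han := ha0 n
      have e1 : (η ^ 2 * V) ^ b ≤ (((1 + C₃) ^ 2 * K) * (‖c - c₀‖ ^ 2 * a n)) ^ b := by
        apply Real.rpow_le_rpow (by positivity) _ hb0.le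
        calc η ^ 2 * V ≤ η ^ 2 * (K * a n) := by gcongr
          _ = _ := by rw [hη]; ring
      have e2 : ((1 + C₃) ^ 2 * K) ^ b ≤ (1 + C₃) ^ 2 * K := by
        have h10 : (1 : ℝ) ≤ (1 + C₃) ^ 2 * K := by
          have : (1 : ℝ) ≤ (1 + C₃) ^ 2 := one_le_pow₀ (by linarith)
          nlinarith
        calc ((1 + C₃) ^ 2 * K) ^ b ≤ ((1 + C₃) ^ 2 * K) ^ (1 : ℝ) :=
              Real.rpow_le_rpow_of_exponent_le h10 hb1
          _ = _ := Real.rpow_one _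
      refine e1.trans ?_
      rw [Real.mul_rpow (by positivity) (by positivity), Real.mul_rpow (by positivity) han]
      calc ((1 + C₃) ^ 2 * K) ^ b * ((‖c - c₀‖ ^ 2) ^ b * a n ^ b)
          ≤ ((1 + C₃) ^ 2 * K) * ((‖c - c₀‖ ^ 2) ^ b * a n ^ b) := by gcongr
        _ = _ := by ring
    have h10 : H / q₀ * (C₅ * (δ ^ 2 * V + (η ^ 2 * V) ^ b)) ≤ g (a n) := by
      calc H / q₀ * (C₅ * (δ ^ 2 * V + (η ^ 2 * V) ^ b)) ≤
          H / q₀ * (C₅ * (δ ^ 2 * (K * a n) +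
            K * ((1 + C₃) ^ 2 * (‖c - c₀‖ ^ 2) ^ b * a n ^ b))) := by gcongr
        _ = _ := by simp only [hg]; rw [hC₇]; ring
    linarith
  refine ⟨a, m, ha0, haanti, haB, ?_, ?_, hvol⟩
  · intro n
    have h2 := seq_block hθ0.le hθ1 hg0 hgm ha0 haanti hrec i₀ n
    have h3 : a (n + (m + (i₀ + 1))) ≤ a (n + m + i₀) := haanti (by omega)
    have h4 : g (a n) / (1 - θ) ≤ a n / 4 + C₈ * (‖c - c₀‖ ^ 2) ^ b * a n ^ b := by
      rw [div_le_iff₀ h1θ]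
      have h5 : (a n / 4 + C₈ * (‖c - c₀‖ ^ 2) ^ b * a n ^ b) * (1 - θ) =
          (1 - θ) / 4 * a n + C₇ * ((1 + C₃) ^ 2 * (‖c - c₀‖ ^ 2) ^ b * a n ^ b) := by
        rw [hC₈]
        field_simp
      rw [h5]
      have h6 := mul_le_mul_of_nonneg_right hδ3 (ha0 n)
      simp only [hg]
      linarith
    have h5 : θ ^ i₀ * a n ≤ 1 / 4 * a n := mul_le_mul_of_nonneg_right hi₀ (ha0 n)
    linarith
  · have h2 : (m : ℝ) ≤ C₄ * (1 + |Real.log η|) + 1 := (Nat.ceil_lt_add_one (by positivity)).le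
    have h3 : |Real.log η| ≤ E + |Real.log ‖c - c₀‖| := by
      rw [hη, Real.log_mul (by positivity) he0.ne']
      exact abs_add_le _ _
    have h4 : 0 ≤ |Real.log ‖c - c₀‖| := abs_nonneg _
    have h5 : C₄ * (1 + |Real.log η|) ≤ C₄ * (1 + (E + |Real.log ‖c - c₀‖|)) := by gcongr
    have h6 : (C₄ * (1 + E) + 1) * (1 + |Real.log ‖c - c₀‖|) =
        C₄ * (1 + (E + |Real.log ‖c - c₀‖|)) + 1 + |Real.log ‖c - c₀‖| +
          C₄ * (E * |Real.log ‖c - c₀‖|) := by ring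
    have h7 := mul_nonneg hC₄.le (mul_nonneg hE0 h4)
    linarith

end Pool.Agent.TH279.MD
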