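import Mathlib
import Pool.Prelude.Def_F_c31e40fa
import Pool.Agent.H548R3.MB.Eff2
import Pool.Agent.H713R2.AR.T1
import Pool.Agent.TH574.J2489
import Pool.Agent.TH574.J2491
import Pool.Agent.TH279.MD.Level

set_option autoImplicit false

open Set Filter Metric MeasureTheory

namespace Pool.Agent.TH279.MD

open Pool.Agent.H713R2 Pool.Agent.H712R2 Pool.Agent.H713R2.AR Pool.Agent.H548R3.MB
open Pool.Agent.TH574.J2489 (sqrt_level)
open Pool.Agent.TH574.J2491 (big_deriv)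

theorem norm_le_two {d : ℕ} (hd : 2 ≤ d) {c : ℂ} (hc : c ∈ N62a1eb23.multibrotSet d) : ‖c‖ ≤ 2 := by
  have hcb := (mem_multibrot_iff hd c).mp hc
  have := hcb 1
  rwa [P_one hd] at this

theorem P_eq (d i : ℕ) (c : ℂ) : P d i c = (f d c)^[i] 0 := rfl

theorem EM_eq (d : ℕ) (r : ℝ) (c : ℂ) (n : ℕ) : EM d r c n = SL d c r n := rfl

theorem KK_sub {d : ℕ} (hd : 2 ≤ d) {c : ℂ} {r : ℝ} (hc : ‖c‖ ≤ 3) (hr : 4 ≤ r) (n : ℕ) :
    KK d c ⊆ SL d c r n := by
  intro z hz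
  by_contra hcon
  have hcon' : r < ‖(f d c)^[n] z‖ := not_le.mp hcon
  apply hz
  change Tendsto (fun n => (f d c)^[n] z) atTop (Bornology.cobounded ℂ)
  set w := (f d c)^[n] z with hw
  have h3 : ∀ j : ℕ, 4 * 2 ^ j ≤ ‖(f d c)^[j] w‖ := by
    intro j
    induction j with
    | zero => simp; linarith
    | succ j ih =>
      rw [Function.iterate_succ_apply']
      set v := (f d c)^[j] w with hv
      have h6 : (1 : ℝ) ≤ 2 ^ j := one_le_pow₀ (by norm_num)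
      have h4 : ‖v‖ ^ 2 ≤ ‖f d c v‖ + ‖c‖ := sq_le_f hd (by linarith)
      rw [pow_succ]
      nlinarith
  rw [← tendsto_norm_atTop_iff_cobounded]
  rw [← tendsto_add_atTop_iff_nat n]
  have h4 : Tendsto (fun j : ℕ => 4 * (2 : ℝ) ^ j) atTop atTop :=
    (tendsto_pow_atTop_atTop_of_one_lt (by norm_num)).const_mul_atTop (by norm_num)
  apply tendsto_atTop_mono _ h4
  intro j
  rw [Function.iterate_add_apply]
  exact h3 j

theorem mem_M_of_preper {d : ℕ} {c₀ : ℂ}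
    (hpp : ∃ m n : ℕ, 1 ≤ n ∧ (f d c₀)^[m + n] 0 = (f d c₀)^[m] 0) :
    c₀ ∈ N62a1eb23.multibrotSet d := by
  obtain ⟨m, n, hn, h⟩ := hpp
  intro hT
  have hT' : Tendsto (fun k => (f d c₀)^[k] 0) atTop (Bornology.cobounded ℂ) := hT
  rw [← tendsto_norm_atTop_iff_cobounded] at hT'
  have h1 : ∀ j, (f d c₀)^[m + n * j] 0 = (f d c₀)^[m] 0 := by
    intro j
    induction j with
    | zero => simp
    | succ j ih =>
      rw [show m + n * (j + 1) = n + (m + n * j) by ring, Function.iterate_add_apply, ih,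
        ← Function.iterate_add_apply, add_comm n m, h]
  have h2 := (hT'.eventually_gt_atTop ‖(f d c₀)^[m] 0‖)
  obtain ⟨N, hN⟩ := eventually_atTop.mp h2
  have h3 := hN (m + n * N) (by nlinarith)
  rw [h1] at h3
  exact lt_irrefl _ h3

/-- The volume of the preimage under a quadratic map. -/
theorem vol_sqrt : ∃ C : ℝ, 0 < C ∧ ∀ (x : ℂ) (S : Set ℂ) (V : ℝ), MeasurableSet S → 0 ≤ V →
    volume S ≤ ENNReal.ofReal V → volume {u : ℂ | u ^ 2 + x ∈ S} ≤ ENNReal.ofReal (C * √V) := by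
  obtain ⟨C, hC, H⟩ := area_rpow 1 one_pos (by norm_num)
  refine ⟨C, hC, ?_⟩
  intro x S V hS hV hvol
  have h1 := H x S V hS hV hvol
  have h2 : (1 : ℝ) - 1 / 2 = 1 / 2 := by norm_num
  rw [h2, ← Real.sqrt_eq_rpow] at h1
  have h3 : al 2 = 1 := by unfold al; norm_num
  have h4 := vol_pre' (d := 2) le_rfl (c := x) hS (X := C * √V) (by rw [h3]; exact h1)
  exact h4

/-- The general inequality: for holomorphic discs inside the Multibrot set. -/
theorem gen_ineq {d : ℕ} (hd : 2 ≤ d) {γ : ℂ → ℂ} (hγ : DifferentiableOn ℂ γ (ball 0 1))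
    (hγM : ∀ t ∈ ball (0 : ℂ) 1, γ t ∈ N62a1eb23.multibrotSet d) {i : ℕ} (hi : 1 ≤ i) :
    ‖deriv (fun t => P d i (γ t)) 0‖ ≤ 2 / Real.pi *
      (volume {u : ℂ | u ^ 2 + P d i (γ 0) ∈ KK d (γ 0)}).toReal := by
  have hpi := Real.pi_pos
  have hB : ∀ t ∈ ball (0 : ℂ) 1, ∀ j, BdJ d 2 j (γ t) := fun t ht j m _ _ =>
    (mem_multibrot_iff hd _).mp (hγM t ht) m
  have hc2 : ‖γ 0‖ ≤ 2 := norm_le_two hd (hγM 0 (mem_ball_self one_pos))
  have h1 : ∀ j, ‖deriv (fun t => P d i (γ t)) 0‖ ≤ 2 / Real.pi *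
      (volume {u : ℂ | u ^ 2 + P d i (γ 0) ∈ Pool.Agent.H713R2.AR.EE d (γ 0) (j + 1)}).toReal := fun j =>
    sqrt_level hd (M := 2) (M' := 3) (by norm_num) (by norm_num) le_rfl hγ i j hi
      (fun t ht => hB t ht _)
  set x : ℂ := P d i (γ 0) with hx
  set T : ℕ → Set ℂ := fun j => {u : ℂ | u ^ 2 + x ∈ Pool.Agent.H713R2.AR.EE d (γ 0) j} with hT
  have hcont : Continuous (fun u : ℂ => u ^ 2 + x) := by fun_prop
  have hTm : ∀ j, MeasurableSet (T j) := fun j =>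
    hcont.measurable (isCompact_EE hd hc2 j).isClosed.measurableSet
  have hTa : Antitone T := fun a b hab u hu => EE_anti hd hc2 hab hu
  have hT0 : volume (T 0) ≠ ⊤ := by
    obtain ⟨C, hC, H⟩ := vol_sqrt
    have h2 : volume (Pool.Agent.H713R2.AR.EE d (γ 0) 0) ≠ ⊤ := (isCompact_EE hd hc2 0).measure_lt_top.ne
    have h3 := H x (Pool.Agent.H713R2.AR.EE d (γ 0) 0) (volume (Pool.Agent.H713R2.AR.EE d (γ 0) 0)).toReal
      (isCompact_EE hd hc2 0).isClosed.measurableSet ENNReal.toReal_nonneg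
      (by rw [ENNReal.ofReal_toReal h2])
    exact ne_top_of_le_ne_top ENNReal.ofReal_ne_top h3
  have hTi : ⋂ j, T j = {u : ℂ | u ^ 2 + x ∈ KK d (γ 0)} := by
    have h5 := Set.ext_iff.mp (iInter_EE hd hc2)
    ext u
    have h6 := h5 (u ^ 2 + x)
    rw [mem_iInter] at h6 ⊢
    exact h6
  have h2 : Tendsto (fun j => volume (T j)) atTop (nhds (volume {u : ℂ | u ^ 2 + x ∈ KK d (γ 0)})) := by
    rw [← hTi]
    exact tendsto_measure_iInter_atTop (fun j => (hTm j).nullMeasurableSet) hTa ⟨0, hT0⟩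
  have h3 : volume {u : ℂ | u ^ 2 + x ∈ KK d (γ 0)} ≠ ⊤ := by
    rw [← hTi]
    exact ne_top_of_le_ne_top hT0 (measure_mono (iInter_subset _ 0))
  have h4 := ((ENNReal.tendsto_toReal h3).comp h2).comp (tendsto_add_atTop_nat 1)
  exact ge_of_tendsto' (h4.const_mul (2 / Real.pi)) h1

/-- The exponent. -/
theorem exponents {d : ℕ} (hd : 2 ≤ d) {e : ℝ} (he : 0 ≤ e) :
    ((e ^ 2) ^ (1 - al d / 2)) ^ (1 / (al d / 2)) = e ^ (2 / ((d : ℝ) - 1)) := by
  have h : (2 : ℝ) ≤ d := by exact_mod_cast hd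
  have ha := al_pos hd
  rw [← Real.rpow_mul (by positivity), ← Real.rpow_natCast e 2, ← Real.rpow_mul he]
  congr 1
  have h1 : (d : ℝ) - 1 ≠ 0 := by linarith
  have h2 : (d : ℝ) ≠ 0 := by linarith
  have h3 : al d = 2 * ((d : ℝ) - 1) / d := by
    unfold al
    field_simp
  rw [h3]
  push_cast
  field_simp
  ring

/-- The area of level sets near a Misiurewicz parameter. -/
theorem level_area {d : ℕ} (hd : 2 ≤ d) {L k : ℕ} {ω c₀ : ℂ} (horb : Orb d L k ω c₀ c₀)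
    (hc₀ : ‖c₀‖ ≤ 2) {r : ℝ} (hr : 4 ≤ r) :
    ∃ C ε₀ : ℝ, 0 ≤ C ∧ 0 < ε₀ ∧ ∀ c : ℂ, c ≠ c₀ → ‖c - c₀‖ ≤ ε₀ →
    ∃ n : ℕ, 2 ≤ n ∧ (n : ℝ) ≤ C * (1 + |Real.log ‖c - c₀‖|) ^ 2 ∧
      volume (SL d c r n) ≤ ENNReal.ofReal (C * ‖c - c₀‖ ^ (2 / ((d : ℝ) - 1))) := by
  obtain ⟨ε₀, C, B, K, C₈, i₀, hε₀, hε₀1, hC, hB, hK, hC₈, H⟩ := recursion hd horb hc₀ hr
  have ha := al_pos hd
  have ha2 := al_lt hd
  set X₀ : ℝ := (4 * C₈) ^ (1 / (al d / 2)) with hX₀
  have hX₀0 : 0 ≤ X₀ := by positivity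
  set C' : ℝ := max (K * (B + X₀)) (8 * (C + i₀) + 4 * (C + i₀) + 2) with hC'
  refine ⟨C', ε₀, ?_, hε₀, ?_⟩
  · exact le_trans (by positivity) (le_max_left _ _)
  intro c hcc hce
  obtain ⟨a, m, ha0, hanti, haB, hrec, hm, hvol⟩ := H c hcc hce
  have he0 : 0 < ‖c - c₀‖ := norm_pos_iff.mpr (sub_ne_zero.mpr hcc)
  set e := ‖c - c₀‖ with he
  have he1 : e ≤ 1 := hce.trans hε₀1
  have hc3 : ‖c‖ ≤ 3 := by
    have h2 : ‖c‖ ≤ ‖c - c₀‖ + ‖c₀‖ := by
      calc ‖c‖ = ‖(c - c₀) + c₀‖ := by congr 1; ring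
        _ ≤ _ := norm_add_le _ _
    linarith
  set ℓ := |Real.log e| with hℓ
  have hℓ0 : 0 ≤ ℓ := abs_nonneg _
  set j := ⌈8 * ℓ⌉₊ with hj
  set q : ℝ := 2 / ((d : ℝ) - 1) with hq
  have hdR : (2 : ℝ) ≤ d := by exact_mod_cast hd
  have hq2 : q ≤ 2 := by
    rw [hq, div_le_iff₀ (by linarith)]
    linarith
  have hq0 : 0 ≤ q := div_nonneg (by norm_num) (by linarith)
  set X : ℝ := (4 * (C₈ * (e ^ 2) ^ (1 - al d / 2))) ^ (1 / (al d / 2)) with hX
  have hXe : X = X₀ * e ^ q := by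
    rw [hX, hX₀, hq, ← exponents hd he0.le, ← mul_assoc,
      Real.mul_rpow (by positivity) (by positivity)]
  have hdec := seq_decay (b := 1 - al d / 2) (β := C₈ * (e ^ 2) ^ (1 - al d / 2)) (X := X)
    (by linarith) (by positivity) (by
      rw [hX, ← Real.rpow_mul (by positivity), sub_sub_cancel, one_div, inv_mul_cancel₀ (by positivity),
        Real.rpow_one]) hanti haB hrec j
  have hpow : (3 / 4 : ℝ) ^ j ≤ e ^ q := by
    have h1 : 8 * ℓ ≤ j := Nat.le_ceil _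
    have h2 : Real.log ((3 / 4 : ℝ) ^ j) ≤ Real.log (e ^ q) := by
      rw [Real.log_pow, Real.log_rpow he0]
      have h3 : Real.log e = -ℓ := by
        rw [hℓ, abs_of_nonpos (Real.log_nonpos he0.le he1), neg_neg]
      have h4 : Real.log (3 / 4) ≤ -(1 / 4) := by
        have := Real.log_le_sub_one_of_pos (by norm_num : (0 : ℝ) < 3 / 4)
        linarith
      rw [h3]
      have h5 : (j : ℝ) * Real.log (3 / 4) ≤ (j : ℝ) * (-(1 / 4)) :=
        mul_le_mul_of_nonneg_left h4 (Nat.cast_nonneg j)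
      have h6 : q * ℓ ≤ 2 * ℓ := mul_le_mul_of_nonneg_right hq2 hℓ0
      linarith
    exact (Real.log_le_log_iff (by positivity) (by positivity)).mp h2
  have haj : a (j * (m + i₀)) ≤ (B + X₀) * e ^ q := by
    have h0 : 0 ≤ e ^ q := by positivity
    refine hdec.trans (max_le ?_ ?_)
    · have h2 : 0 ≤ X₀ * e ^ q := by positivity
      have h3 : B * (3 / 4) ^ j ≤ B * e ^ q := by gcongr
      linarith
    · have h2 : 0 ≤ B * e ^ q := by positivity
      rw [hXe]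
      linarith
  refine ⟨j * (m + i₀) + 2, by omega, ?_, ?_⟩
  · have h1 : (j : ℝ) ≤ 8 * ℓ + 1 := (Nat.ceil_lt_add_one (by positivity)).le
    have h2 : (m : ℝ) + i₀ ≤ (C + i₀) * (1 + ℓ) := by
      have : 0 ≤ (i₀ : ℝ) * ℓ := by positivity
      linarith
    have h3 : (j : ℝ) * (m + i₀) ≤ (8 * ℓ + 1) * ((C + i₀) * (1 + ℓ)) :=
      mul_le_mul h1 h2 (by positivity) (by positivity)
    have h4 : (8 * ℓ + 1) * ((C + i₀) * (1 + ℓ)) ≤ 8 * (C + i₀) * (1 + ℓ) ^ 2 := by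
      have h5 : 0 ≤ (C + i₀) * (1 + ℓ) := by positivity
      have h6 : 8 * (C + i₀) * (1 + ℓ) ^ 2 = (8 * ℓ + 8) * ((C + i₀) * (1 + ℓ)) := by ring
      rw [h6]
      exact mul_le_mul_of_nonneg_right (by linarith) h5
    have h7 : (2 : ℝ) ≤ 2 * (1 + ℓ) ^ 2 := by
      have : (1 : ℝ) ≤ (1 + ℓ) ^ 2 := one_le_pow₀ (by linarith)
      linarith
    have h8 : C' ≥ 8 * (C + i₀) + 4 * (C + i₀) + 2 := le_max_right _ _
    have h9 : (8 * (C + i₀) + 2) * (1 + ℓ) ^ 2 ≤ C' * (1 + ℓ) ^ 2 := by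
      apply mul_le_mul_of_nonneg_right _ (by positivity)
      have : 0 ≤ 4 * (C + i₀) := by positivity
      linarith
    push_cast
    linarith
  · have h1 : SL d c r (j * (m + i₀) + 2) ⊆ SL d c r (j * (m + i₀)) := SL_anti hd hc3 hr (by omega)
    refine (measure_mono h1).trans ((hvol _).trans ?_)
    apply ENNReal.ofReal_le_ofReal
    have h0 : 0 ≤ e ^ q := by positivity
    calc K * a (j * (m + i₀)) ≤ K * ((B + X₀) * e ^ q) := by gcongr
      _ = K * (B + X₀) * e ^ q := by ring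
      _ ≤ C' * e ^ q := mul_le_mul_of_nonneg_right (le_max_left _ _) h0

/-- Speed of holomorphic discs without centres of small period, weighted by the derivative of the
critical orbit. -/
theorem disc_sqrt {d : ℕ} (hd : 2 ≤ d) {i j : ℕ} (hi : 1 ≤ i) {γ : ℂ → ℂ}
    (hγ : DifferentiableOn ℂ γ (ball 0 1)) (hc : γ 0 ∈ N62a1eb23.multibrotSet d)
    (hno : ∀ t ∈ ball (0 : ℂ) 1, ¬ Centre d (i + j + 2) (γ t)) :
    (1 / 4) * (‖deriv γ 0‖ * ‖deriv (P d i) (γ 0)‖) ≤ 2 / Real.pi *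
      (volume {u : ℂ | u ^ 2 + P d i (γ 0) ∈ SL d (γ 0) (H548R3.MB.MM d 1 + 3) (j + 1)}).toReal := by
  have hM1 := one_le_MM d 1
  have hmap : ∀ t ∈ ball (0 : ℂ) 1, ‖((1 / 4 : ℝ) : ℂ) * t‖ ≤ 1 / 4 := by
    intro t ht
    rw [mem_ball_zero_iff] at ht
    rw [norm_mul, Complex.norm_real, Real.norm_eq_abs, abs_of_nonneg (by norm_num)]
    nlinarith
  have hin : ∀ t ∈ ball (0 : ℂ) 1, ((1 / 4 : ℝ) : ℂ) * t ∈ ball (0 : ℂ) 1 := by
    intro t ht
    rw [mem_ball_zero_iff]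
    exact (hmap t ht).trans_lt (by norm_num)
  have h1 := sqrt_level hd (M := H548R3.MB.MM d 1) (M' := H548R3.MB.MM d 1 + 3) (by linarith) (by linarith)
    (by linarith) (γ := fun t => γ (((1 / 4 : ℝ) : ℂ) * t)) (hγ.comp (by fun_prop) hin) i j hi
    (fun t ht => disc_bd hd hγ hc hno 1 _ ((hmap t ht).trans (by norm_num)))
  rw [mul_zero] at h1
  refine le_trans (le_of_eq ?_) h1
  have h3 : HasDerivAt γ (deriv γ 0) (((1 / 4 : ℝ) : ℂ) * 0) := by
    rw [mul_zero]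
    exact (hγ.differentiableAt (ball_mem_nhds 0 one_pos)).hasDerivAt
  have h4 : HasDerivAt (fun t : ℂ => ((1 / 4 : ℝ) : ℂ) * t) ((1 / 4 : ℝ) : ℂ) 0 := by
    simpa using (hasDerivAt_id (0 : ℂ)).const_mul ((1 / 4 : ℝ) : ℂ)
  have h5 := h3.comp (0 : ℂ) h4
  have h6 : HasDerivAt (P d i) (deriv (P d i) (γ 0)) (γ (((1 / 4 : ℝ) : ℂ) * 0)) := by
    rw [mul_zero]
    exact (differentiable_P d i _).hasDerivAt
  have h7 := h6.comp (0 : ℂ) h5
  have h8 : deriv (fun t => P d i (γ (((1 / 4 : ℝ) : ℂ) * t))) 0 =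
      deriv (P d i) (γ 0) * (deriv γ 0 * ((1 / 4 : ℝ) : ℂ)) := h7.deriv
  rw [h8, norm_mul, norm_mul, Complex.norm_real, Real.norm_eq_abs, abs_of_nonneg (by norm_num)]
  ring

/-- The three upper bounds. -/
theorem upper {d : ℕ} (hd : 2 ≤ d) {c₀ : ℂ}
    (hpp : ∃ m n : ℕ, 1 ≤ n ∧ (f d c₀)^[m + n] 0 = (f d c₀)^[m] 0)
    (hnp : ∀ p : ℕ, 1 ≤ p → (f d c₀)^[p] 0 ≠ 0) :
    ∃ C : ℝ, 0 < C ∧ ∀ c ∈ N62a1eb23.multibrotSet d, c ≠ c₀ →
    volume (KK d c) ≤ ENNReal.ofReal (C * ‖c - c₀‖ ^ (2 / ((d : ℝ) - 1))) ∧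
    (∃ c' : ℂ, ‖c' - c‖ ≤ C * ‖c - c₀‖ ^ ((d : ℝ) / ((d : ℝ) - 1)) ∧ ∃ p : ℕ, 1 ≤ p ∧
      (fun z : ℂ => z ^ d + c')^[p] 0 = 0 ∧
      N62a1eb23.IsAttractingCycle (fun z : ℂ => z ^ d + c') p 0 ∧
      (p : ℝ) ≤ C * (1 + |Real.log ‖c - c₀‖|) ^ 2) ∧
    (∀ V : Set ℂ, IsOpen V → IsPreconnected V →
      ((∀ c₁ ∈ V, ¬ ∃ m z, N62a1eb23.IsAttractingCycle (fun z : ℂ => z ^ d + c₁) m z) ∨
        V ⊆ N62a1eb23.multibrotSet d) →
      ∀ γ : ℂ → ℂ, DifferentiableOn ℂ γ (ball 0 1) → (∀ t ∈ ball (0 : ℂ) 1, γ t ∈ V) → γ 0 = c →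
        ‖deriv γ 0‖ ≤ C * ‖c - c₀‖ ^ ((d : ℝ) / ((d : ℝ) - 1))) := by
  have hdR : (2 : ℝ) ≤ d := by exact_mod_cast hd
  obtain ⟨L, k, ω, horb⟩ := orb_of_preper hd hpp hnp
  have hc₀ : ‖c₀‖ ≤ 2 := norm_le_two hd (mem_M_of_preper hpp)
  have hrep := repelling hd horb
  obtain ⟨ρ₁, C₃, vf, hρ₁, hC₃, hvf, hvf0, hcontin⟩ := cont hd horb hrep
  obtain ⟨mo, κo, εo, hκo, hεo, hεoρ, hord⟩ := nonzero_order hd hρ₁ hvf hvf0
    (fun c hc => (hcontin c hc).2)
  obtain ⟨κ, Cg, εg, hκ, hCg, hεg, hgrow⟩ := big_deriv hd horb hrep hρ₁ hvf hcontin hκo hεo hεoρ hord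
  have hM1 := one_le_MM d 1
  set r : ℝ := H548R3.MB.MM d 1 + 3 with hr
  have hr4 : 4 ≤ r := by linarith
  obtain ⟨Ca, εa, hCa, hεa, hlev⟩ := level_area hd horb hc₀ hr4
  obtain ⟨Cs, hCs, hsq⟩ := vol_sqrt
  have hpi := Real.pi_gt_three
  set q : ℝ := 2 / ((d : ℝ) - 1) with hq
  set q' : ℝ := (d : ℝ) / ((d : ℝ) - 1) with hq'
  have hd1 : 0 < (d : ℝ) - 1 := by linarith
  have hqq : q' = 1 + q / 2 := by
    rw [hq', hq]
    field_simp
    ring
  have hq0 : 0 ≤ q := by positivity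
  have hq'0 : 0 ≤ q' := by positivity
  set ε₁ : ℝ := min (min εg εa) 1 with hε₁
  have hε₁0 : 0 < ε₁ := by positivity
  -- the volume of the filled Julia set, far away
  have hKsub : ∀ c : ℂ, ‖c‖ ≤ 3 → KK d c ⊆ closedBall 0 r := by
    intro c hc
    exact (KK_sub hd hc hr4 0).trans (SL_sub hd hc hr4 0)
  set V₀ : ℝ := (volume (closedBall (0 : ℂ) r)).toReal with hV₀
  have hV₀0 : 0 ≤ V₀ := ENNReal.toReal_nonneg
  have hV₀fin : volume (closedBall (0 : ℂ) r) ≠ ⊤ := (isCompact_closedBall _ _).measure_lt_top.ne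
  -- the main estimate
  have hmain : ∀ c : ℂ, c ≠ c₀ → ‖c - c₀‖ ≤ ε₁ → ∀ S : Set ℂ, MeasurableSet S → ∀ x : ℂ,
      volume S ≤ ENNReal.ofReal (Ca * ‖c - c₀‖ ^ q) → ∀ D : ℝ, 0 ≤ D → κ / ‖c - c₀‖ ≤ D →
      ∀ g : ℝ, 0 ≤ g → (1 / 4) * (g * D) ≤ 2 / Real.pi * (volume {u : ℂ | u ^ 2 + x ∈ S}).toReal →
      g ≤ (8 * Cs * √Ca / κ) * ‖c - c₀‖ ^ q' := by
    intro c hcc hce S hS x hvol D hD hκD g hg h
    have he0 : 0 < ‖c - c₀‖ := norm_pos_iff.mpr (sub_ne_zero.mpr hcc)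
    set e := ‖c - c₀‖ with he
    have h1 := hsq x S (Ca * e ^ q) hS (by positivity) hvol
    have h2 : (volume {u : ℂ | u ^ 2 + x ∈ S}).toReal ≤ Cs * √(Ca * e ^ q) := by
      have h3 := ENNReal.toReal_mono ENNReal.ofReal_ne_top h1
      rwa [ENNReal.toReal_ofReal (by positivity)] at h3
    have h3 : √(Ca * e ^ q) = √Ca * e ^ (q / 2) := by
      rw [Real.sqrt_mul hCa, Real.sqrt_eq_rpow (e ^ q), ← Real.rpow_mul he0.le]
      congr 2
      ring
    have h4 : 2 / Real.pi ≤ 1 := by rw [div_le_one (by linarith)]; linarith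
    have h5 : (1 / 4) * (g * D) ≤ Cs * (√Ca * e ^ (q / 2)) := by
      refine h.trans ?_
      rw [← h3]
      calc 2 / Real.pi * (volume {u : ℂ | u ^ 2 + x ∈ S}).toReal
          ≤ 1 * (Cs * √(Ca * e ^ q)) := mul_le_mul h4 h2 ENNReal.toReal_nonneg (by norm_num)
        _ = _ := one_mul _
    have h6 : g * (κ / e) ≤ g * D := mul_le_mul_of_nonneg_left hκD hg
    have h7 : g * κ / e ≤ 4 * (Cs * (√Ca * e ^ (q / 2))) := by
      have : g * κ / e = g * (κ / e) := by ring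
      rw [this]
      linarith
    have h8 : g * κ ≤ 4 * (Cs * (√Ca * e ^ (q / 2))) * e := by
      rwa [div_le_iff₀ he0] at h7
    have h9 : e ^ (q / 2) * e = e ^ q' := by
      rw [hqq, add_comm, Real.rpow_add he0, Real.rpow_one]
    have h10 : g * κ ≤ 4 * Cs * √Ca * e ^ q' := by
      rw [← h9]
      linarith
    have h11 : 0 ≤ 4 * Cs * √Ca * e ^ q' := by positivity
    have h12 : (8 * Cs * √Ca / κ) * e ^ q' = (8 * Cs * √Ca * e ^ q') / κ := by ring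
    rw [h12, le_div_iff₀ hκ]
    linarith
  set C₁ : ℝ := max (max (Ca + 1) (8 * Cs * √Ca / κ))
    (max ((V₀ + 2) / ε₁ ^ q + (V₀ + 4) / ε₁ ^ q') (Cg + Ca + 2)) with hC₁
  have hC₁a : Ca + 1 ≤ C₁ := (le_max_left _ _).trans (le_max_left _ _)
  have hC₁b : 8 * Cs * √Ca / κ ≤ C₁ := (le_max_right _ _).trans (le_max_left _ _)
  have hC₁c : (V₀ + 2) / ε₁ ^ q + (V₀ + 4) / ε₁ ^ q' ≤ C₁ :=
    (le_max_left _ _).trans (le_max_right _ _)
  have hC₁d : Cg + Ca + 2 ≤ C₁ := (le_max_right _ _).trans (le_max_right _ _)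
  have hC₁0 : 0 < C₁ := by linarith
  have hεq : 0 < ε₁ ^ q := by positivity
  have hεq' : 0 < ε₁ ^ q' := by positivity
  have hfar : ∀ c : ℂ, ε₁ < ‖c - c₀‖ → V₀ + 2 ≤ C₁ * ‖c - c₀‖ ^ q := by
    intro c hce
    have h1 : (V₀ + 2) / ε₁ ^ q ≤ C₁ := by
      have : 0 ≤ (V₀ + 4) / ε₁ ^ q' := by positivity
      linarith
    rw [div_le_iff₀ hεq] at h1
    have h2 : ε₁ ^ q ≤ ‖c - c₀‖ ^ q := Real.rpow_le_rpow hε₁0.le hce.le hq0
    nlinarith
  have hfar' : ∀ c : ℂ, ε₁ < ‖c - c₀‖ → V₀ + 4 ≤ C₁ * ‖c - c₀‖ ^ q' := by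
    intro c hce
    have h1 : (V₀ + 4) / ε₁ ^ q' ≤ C₁ := by
      have : 0 ≤ (V₀ + 2) / ε₁ ^ q := by positivity
      linarith
    rw [div_le_iff₀ hεq'] at h1
    have h2 : ε₁ ^ q' ≤ ‖c - c₀‖ ^ q' := Real.rpow_le_rpow hε₁0.le hce.le hq'0
    nlinarith
  refine ⟨C₁, hC₁0, ?_⟩
  intro c hc hc2
  have hc2' : ‖c‖ ≤ 2 := norm_le_two hd hc
  have hL1 : 1 ≤ 1 + |Real.log ‖c - c₀‖| := by linarith [abs_nonneg (Real.log ‖c - c₀‖)]
  have hLL : 1 ≤ (1 + |Real.log ‖c - c₀‖|) ^ 2 := one_le_pow₀ hL1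
  refine ⟨?_, ?_, ?_⟩
  · rcases le_or_gt ‖c - c₀‖ ε₁ with hce | hce
    · obtain ⟨n, _, _, hn3⟩ := hlev c hc2 (hce.trans ((min_le_left _ _).trans (min_le_right _ _)))
      refine (measure_mono (KK_sub hd (by linarith) hr4 n)).trans (hn3.trans ?_)
      apply ENNReal.ofReal_le_ofReal
      have : 0 ≤ ‖c - c₀‖ ^ q := by positivity
      nlinarith
    · refine (measure_mono (hKsub c (by linarith))).trans ?_
      rw [← ENNReal.ofReal_toReal hV₀fin]
      apply ENNReal.ofReal_le_ofReal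
      have := hfar c hce
      linarith
  · rcases le_or_gt ‖c - c₀‖ ε₁ with hce | hce
    · obtain ⟨n, hn1, hn2, hn3⟩ := hlev c hc2 (hce.trans ((min_le_left _ _).trans (min_le_right _ _)))
      obtain ⟨i, hi1, hi2, hi3⟩ := hgrow c hc2 (hce.trans ((min_le_left _ _).trans (min_le_left _ _)))
      obtain ⟨j, rfl⟩ : ∃ j, n = j + 1 := ⟨n - 1, by omega⟩
      obtain ⟨c', hc', hdist⟩ := (isClosed_centre d (i + j + 2)).exists_infDist_eq_dist
        ⟨0, centre_zero hd (by omega)⟩ c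
      obtain ⟨p, hp1, hp2, hp3⟩ := hc'
      refine ⟨c', ?_, p, hp1, hp3, att_of_centre hd hp1 hp3, ?_⟩
      · set R : ℝ := dist c c' with hR
        have hRn : ‖c' - c‖ = R := by rw [hR, dist_comm, dist_eq_norm]
        rw [hRn]
        have hR0 : 0 ≤ R := dist_nonneg
        have hder : deriv (fun t : ℂ => c + R * t) 0 = R := by
          have h4 : HasDerivAt (fun t : ℂ => c + (R : ℂ) * t) R 0 := by
            simpa using ((hasDerivAt_id (0 : ℂ)).const_mul (R : ℂ)).const_add c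
          exact h4.deriv
        rcases hR0.eq_or_lt with h0 | h0
        · rw [← h0]; positivity
        have h1 := disc_sqrt hd (i := i) (j := j) hi1 (γ := fun t : ℂ => c + R * t) (by fun_prop)
          (by simpa using hc) ?_
        · rw [hder] at h1
          simp only [mul_zero, add_zero] at h1
          rw [Complex.norm_real, Real.norm_eq_abs, abs_of_nonneg hR0] at h1
          have h2 := hmain c hc2 hce (SL d c r (j + 1)) (measurableSet_SL d c r (j + 1))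
            (P d i c) hn3 ‖deriv (P d i) c‖ (norm_nonneg _) hi3 R hR0 h1
          refine h2.trans (mul_le_mul_of_nonneg_right hC₁b (by positivity))
        · intro t ht hcen
          rw [mem_ball_zero_iff] at ht
          have h2 : infDist c {c : ℂ | Centre d (i + j + 2) c} ≤ dist c (c + R * t) :=
            infDist_le_dist_of_mem hcen
          rw [hdist, dist_eq_norm, show c - (c + R * t) = -(R * t) by ring, norm_neg, norm_mul,
            Complex.norm_real, Real.norm_eq_abs, abs_of_nonneg hR0] at h2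
          nlinarith
      · have h1 : (p : ℝ) ≤ ((i + j + 2 : ℕ) : ℝ) := by exact_mod_cast hp2
        refine h1.trans ?_
        push_cast
        push_cast at hn2
        have h2 : (i : ℝ) ≤ Cg * (1 + |Real.log ‖c - c₀‖|) ^ 2 := by
          refine hi2.trans ?_
          apply mul_le_mul_of_nonneg_left _ hCg.le
          nlinarith
        have h3 : (Cg + Ca + 2) * (1 + |Real.log ‖c - c₀‖|) ^ 2 ≤
            C₁ * (1 + |Real.log ‖c - c₀‖|) ^ 2 := by gcongr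
        nlinarith
    · refine ⟨0, ?_, 1, le_rfl, ?_, ?_, ?_⟩
      · rw [zero_sub, norm_neg]
        have := hfar' c hce
        linarith
      · simp [show d ≠ 0 by omega]
      · exact att_of_centre hd le_rfl (by simp [show d ≠ 0 by omega])
      · push_cast
        nlinarith
  · intro V hV hVc hno γ hγ hγV hγc
    have hVM : V ⊆ N62a1eb23.multibrotSet d := by
      rcases hno with h | h
      · exact open_subset hd hV hVc (hγV 0 (mem_ball_self one_pos)) (by rw [hγc]; exact hc) h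
      · exact h
    have hγM : ∀ t ∈ ball (0 : ℂ) 1, γ t ∈ N62a1eb23.multibrotSet d := fun t ht => hVM (hγV t ht)
    rcases le_or_gt ‖c - c₀‖ ε₁ with hce | hce
    · obtain ⟨n, hn1, hn2, hn3⟩ := hlev c hc2 (hce.trans ((min_le_left _ _).trans (min_le_right _ _)))
      obtain ⟨i, hi1, hi2, hi3⟩ := hgrow c hc2 (hce.trans ((min_le_left _ _).trans (min_le_left _ _)))
      obtain ⟨j, rfl⟩ : ∃ j, n = j + 1 := ⟨n - 1, by omega⟩
      have h1 := sqrt_level hd (M := 2) (M' := r) (by norm_num) (by linarith) (by linarith) hγ i j hi1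
        (fun t ht m _ _ => (mem_multibrot_iff hd _).mp (hγM t ht) m)
      rw [hγc] at h1
      have h3 : HasDerivAt γ (deriv γ 0) 0 :=
        (hγ.differentiableAt (ball_mem_nhds 0 one_pos)).hasDerivAt
      have h6 : HasDerivAt (P d i) (deriv (P d i) c) (γ 0) := by
        rw [hγc]
        exact (differentiable_P d i _).hasDerivAt
      have h7 := (h6.comp (0 : ℂ) h3).deriv
      have h8 : deriv (fun t => P d i (γ t)) 0 = deriv (P d i) c * deriv γ 0 := h7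
      rw [h8, norm_mul] at h1
      have h9 := hmain c hc2 hce (SL d c r (j + 1)) (measurableSet_SL d c r (j + 1))
        (P d i c) hn3 ‖deriv (P d i) c‖ (norm_nonneg _) hi3 ‖deriv γ 0‖ (norm_nonneg _) (by
          have h10 : 0 ≤ ‖deriv (P d i) c‖ * ‖deriv γ 0‖ := by positivity
          have h11 : (1 / 4) * (‖deriv γ 0‖ * ‖deriv (P d i) c‖) ≤
              ‖deriv (P d i) c‖ * ‖deriv γ 0‖ := by nlinarith
          exact h11.trans h1)
      exact h9.trans (mul_le_mul_of_nonneg_right hC₁b (by positivity))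
    · -- Cauchy estimate
      have h1 : ‖deriv γ 0‖ ≤ 4 := by
        have h2 : ∀ R : ℝ, 0 < R → R < 1 → ‖deriv γ 0‖ ≤ 2 / R := by
          intro R hR0 hR1
          apply Complex.norm_deriv_le_of_forall_mem_sphere_norm_le hR0
          · apply DifferentiableOn.diffContOnCl
            rw [closure_ball _ hR0.ne']
            exact hγ.mono (closedBall_subset_ball hR1)
          · intro t ht
            exact norm_le_two hd (hγM t (closedBall_subset_ball hR1 (sphere_subset_closedBall ht)))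
        have := h2 (1 / 2) (by norm_num) (by norm_num)
        linarith
      have := hfar' c hce
      linarith

end Pool.Agent.TH279.MD
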